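import Mathlib
import Pool.Agent.Lib.H41V.Q6
import Pool.Agent.Lib.H13S.VW

/-! # H41P, E1: residue fields and numbers of points of the primes in AnW and AnR, for the fields generated by F -/

open NumberField IsDedekindDomain WeierstrassCurve

namespace H41P

open H55P (IQ UnrP PExt)
open H55K H55K.TQ
open H55R (Pl es fs)
open H41V
open H13T (AnR AnW emb emb_apply q_es_iff q_bijK q_p q_pts q_cases q_gal2)
open H13V (eK)

/-- The abstract form. -/
theorem ze_abs {F K' K L' L : Type} [Field F] [NumberField F] [IQ F] [Field K'] [NumberField K'] [Field K] [NumberField K] [Field L']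
    [NumberField L'] [Field L] [NumberField L] [Algebra F L'] [Algebra K' K] [Algebra K' L'] [Algebra K L] [Algebra L' L] [Algebra K' L]
    [IsScalarTower K' K L] [IsScalarTower K' L' L] [IsGalois K' K] [IsGalois L' L] (hc : IsCyclic (K ≃ₐ[K'] K)) {p t : ℕ} (hp : p.Prime)
    (hp2 : p ≠ 2) (h1 : Module.finrank K' K = p ^ t) (h2 : Module.finrank L' L = p ^ t) (h3 : Module.finrank K L ≤ 2) (hU : UnrP p K)
    {W : WeierstrassCurve ℤ} {Om : ℂ} {m : Ideal (𝓞 F)} {ψ : Ideal (𝓞 F) →*₀ 𝓞 F} (hH : BaseH F (W⁄(𝓞 F)) Om m ψ)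
    (hQ : Function.Bijective (algebraMap K' L') ∨ QuadG F K' L') (w' : Pl L')
    (hΔ : algebraMap (𝓞 F) (𝓞 L') (W⁄(𝓞 F)).Δ ∉ w'.asIdeal) (he : es L' L w' ≠ 1)
    (hpt : p ∣ Nat.card ((W⁄(𝓞 F))⁄(𝓞 L' ⧸ w'.asIdeal)).toAffine.Point) :
    ∃ w : Pl K', w.asIdeal = w'.asIdeal.under (𝓞 K') ∧ w ∈ AnR p W K' K ∧ es L' L w' = es K' K w ∧
      Ideal.absNorm w'.asIdeal = Ideal.absNorm w.asIdeal ∧
      Nat.card ((W⁄(𝓞 F))⁄(𝓞 L' ⧸ w'.asIdeal)).toAffine.Point = Nat.card (W⁄(𝓞 K' ⧸ w.asIdeal)).toAffine.Point := by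
  obtain ⟨w, hw0⟩ : ∃ w, w = HeightOneSpectrum.under (𝓞 K') w' := ⟨_, rfl⟩
  have hw : w.asIdeal = w'.asIdeal.under (𝓞 K') := by rw [hw0]; rfl
  have hΔ' : ((W.Δ : ℤ) : 𝓞 K') ∉ w.asIdeal := by
    intro h4
    apply hΔ
    rw [hw, Ideal.mem_comap, map_intCast] at h4
    have e1 : (W⁄(𝓞 F)).Δ = ((W.Δ : ℤ) : 𝓞 F) := by
      show (W.map (algebraMap ℤ (𝓞 F))).Δ = _
      rw [WeierstrassCurve.map_Δ]
      exact eq_intCast (algebraMap ℤ (𝓞 F)) W.Δ
    rw [e1, map_intCast]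
    exact h4
  rcases q_cases hQ hH w hΔ' with ⟨-, h4⟩ | ⟨h4, h5⟩
  · obtain ⟨hN, hr⟩ := h4 w' hw
    have h7 := q_pts (F := F) W w w' hw hN
    have h6 := q_squareT hp hp2 h1 h2 h3 w w' hw hr
    refine ⟨w, hw, ⟨hΔ', by rw [← h7]; exact hpt, (q_es_iff w).1 ?_⟩, h6, hN, h7⟩
    rw [← h6]
    exact he
  · exfalso
    obtain ⟨hr, hc'⟩ := h5 w' hw
    rw [hc'] at hpt
    have hw1 : es K' K w ≠ 1 := by
      rw [← q_squareT hp hp2 h1 h2 h3 w w' hw hr]
      exact he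
    have hd := hp.dvd_of_dvd_pow hpt
    have h4 := tame_cyc K' K hc hp h1 w (q_p hp hU w hw1) hw1
    have h5 : Ideal.absNorm w.asIdeal ≠ 0 := fun h => w.ne_bot (Ideal.absNorm_eq_zero_iff.1 h)
    have h6 : p ∣ 2 := by
      have h7 := (Nat.dvd_sub hd h4)
      have h8 : Ideal.absNorm w.asIdeal + 1 - (Ideal.absNorm w.asIdeal - 1) = 2 := by omega
      rwa [h8] at h7
    exact hp2 ((Nat.prime_dvd_prime_iff_eq hp Nat.prime_two).1 h6)

/-- The norm of a prime in an extension of degree at most 2. -/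
theorem ze_le2 {M L : Type} [Field M] [NumberField M] [Field L] [NumberField L] [Algebra M L] (h : Module.finrank M L ≤ 2) (v : Pl M)
    (w : Pl L) (hw : w.asIdeal.under (𝓞 M) = v.asIdeal) : Ideal.absNorm w.asIdeal ≤ Ideal.absNorm v.asIdeal ^ 2 := by
  have hG : IsGalois M L := q_gal2 h
  obtain ⟨T, -, hT⟩ := H55P.pt10_card (K' := L) v
  have hpos := Module.finrank_pos (R := M) (M := L)
  have hvm := v.isMaximal
  have hwm := w.isMaximal
  have hl : w.asIdeal.LiesOver v.asIdeal := ⟨hw.symm⟩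
  have h5 := Ideal.absNorm_eq_pow_inertiaDeg'_of_liesOver w.asIdeal v.asIdeal v.isPrime v.ne_bot
  rw [Ideal.inertiaDeg'_algebraMap, ← Ideal.inertiaDeg_eq_of_isMaximal v.asIdeal w.asIdeal] at h5
  have h6 : fs M L v = w.asIdeal.inertiaDeg (𝓞 M) := (SSR.c2_es v w (HeightOneSpectrum.ext hw)).2
  rw [h5, ← h6]
  have h7 : 1 ≤ Ideal.absNorm v.asIdeal := Nat.one_le_iff_ne_zero.2 fun h => v.ne_bot (Ideal.absNorm_eq_zero_iff.1 h)
  refine Nat.pow_le_pow_right h7 ?_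
  have h8 : T.card * (es M L v * fs M L v) = (T.card * es M L v) * fs M L v := by ring
  rw [h8] at hT
  have h9 : 0 < T.card * es M L v := by
    rcases Nat.eq_zero_or_pos (T.card * es M L v) with h0 | h0
    · rw [h0, zero_mul] at hT
      omega
    · exact h0
  calc fs M L v ≤ (T.card * es M L v) * fs M L v := Nat.le_mul_of_pos_left _ h9
    _ ≤ 2 := by rw [hT]; exact h

/-- The norm of a prime of residue degree larger than 1 in a Galois extension of degree a power of p ≥ 3. -/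
theorem ze_lt {M L : Type} [Field M] [NumberField M] [Field L] [NumberField L] [Algebra M L] [IsGalois M L] {p n : ℕ} (hp : p.Prime)
    (hp2 : p ≠ 2) (hd : Module.finrank M L = p ^ n) (v : Pl M)
    (w : Pl L) (hw : w.asIdeal.under (𝓞 M) = v.asIdeal) (hne : Ideal.absNorm v.asIdeal ≠ Ideal.absNorm w.asIdeal) :
    Ideal.absNorm v.asIdeal ^ 2 < Ideal.absNorm w.asIdeal := by
  obtain ⟨j, hj⟩ := H41S.fin_deg hp hd v w hw
  have hvm := v.isMaximal
  have hwm := w.isMaximal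
  have hl : w.asIdeal.LiesOver v.asIdeal := ⟨hw.symm⟩
  have h5 := Ideal.absNorm_eq_pow_inertiaDeg'_of_liesOver w.asIdeal v.asIdeal v.isPrime v.ne_bot
  rw [Ideal.inertiaDeg'_algebraMap, ← Ideal.inertiaDeg_eq_of_isMaximal v.asIdeal w.asIdeal, hj] at h5
  rw [h5]
  have h7 : 1 < Ideal.absNorm v.asIdeal := by
    have h8 : Ideal.absNorm v.asIdeal ≠ 0 := fun h => v.ne_bot (Ideal.absNorm_eq_zero_iff.1 h)
    have h9 : Ideal.absNorm v.asIdeal ≠ 1 := fun h => v.isPrime.ne_top (Ideal.absNorm_eq_one_iff.1 h)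
    omega
  refine Nat.pow_lt_pow_right h7 ?_
  rcases Nat.eq_zero_or_pos j with h0 | h0
  · rw [h0, pow_zero, pow_one] at h5
    exact absurd h5.symm hne
  · have h8 : 2 < p := lt_of_le_of_ne hp.two_le (Ne.symm hp2)
    exact lt_of_lt_of_le h8 (Nat.le_self_pow h0.ne' p)

variable {F : Type} [Field F] [NumberField F] [IQ F] {p n t : ℕ} {M K' K : Type} [Field M] [NumberField M]
    [Field K'] [NumberField K'] [Field K] [NumberField K] [Algebra M K'] [Algebra K' K] [Algebra M K]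

/-- The primes in AnW. -/
theorem ze_sets (hp : p.Prime) (hp2 : p ≠ 2) (h : H13V.CycT p n t M K' K) (hU : UnrP p K)
    {W : WeierstrassCurve ℤ} {Om : ℂ} {m : Ideal (𝓞 F)} {ψ : Ideal (𝓞 F) →*₀ 𝓞 F} (hH : BaseH F (W⁄(𝓞 F)) Om m ψ)
    (ιK : K →ₐ[ℚ] AlgebraicClosure F) (w' : Pl (KG F K' (emb ιK : K' →ₐ[ℚ] AlgebraicClosure F)))
    (hw' : w' ∈ AnW p (W⁄(𝓞 F)) (KG F K' (emb ιK : K' →ₐ[ℚ] AlgebraicClosure F)) (KG F K ιK)) :
    letI : Algebra K' (KG F K' (emb ιK : K' →ₐ[ℚ] AlgebraicClosure F)) := (KGmap F K' (emb ιK)).toAlgebra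
    ∃ w : Pl K', w.asIdeal = w'.asIdeal.under (𝓞 K') ∧ w ∈ AnR p W K' K ∧ eI (q_leT h ιK).2 w' = eK K w ∧
      Ideal.absNorm w'.asIdeal = Ideal.absNorm w.asIdeal ∧
      Nat.card ((W⁄(𝓞 F))⁄(𝓞 (KG F K' (emb ιK : K' →ₐ[ℚ] AlgebraicClosure F)) ⧸ w'.asIdeal)).toAffine.Point =
        Nat.card (W⁄(𝓞 K' ⧸ w.asIdeal)).toAffine.Point := by
  obtain ⟨d, hd, hdK, hdK', -⟩ := q_degT hp hp2 h ιK
  obtain ⟨hd1F, hd2F⟩ := q_degFT hp hp2 h ιK
  obtain ⟨hG, hdeg⟩ := q_stepT hp.pos h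
  have hle := (q_leT h ιK).2
  letI aK' : Algebra K' (KG F K' (emb ιK : K' →ₐ[ℚ] AlgebraicClosure F)) := (KGmap F K' (emb ιK)).toAlgebra
  letI aK : Algebra K (KG F K ιK) := (KGmap F K ιK).toAlgebra
  letI aL : Algebra (KG F K' (emb ιK : K' →ₐ[ℚ] AlgebraicClosure F)) (KG F K ιK) := H55P.s13_alg hle
  letI aKL : Algebra K' (KG F K ιK) := ((algebraMap K (KG F K ιK)).comp (algebraMap K' K)).toAlgebra
  have t1 : IsScalarTower K' K (KG F K ιK) := IsScalarTower.of_algebraMap_eq fun x => rfl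
  have t2 : IsScalarTower K' (KG F K' (emb ιK : K' →ₐ[ℚ] AlgebraicClosure F)) (KG F K ιK) :=
    IsScalarTower.of_algebraMap_eq fun x => Subtype.ext (by
      show ιK (algebraMap K' K x) = (emb ιK : K' →ₐ[ℚ] AlgebraicClosure F) x
      exact (emb_apply ιK x).symm)
  have hLf : FiniteDimensional F (KG F K ιK) := H13R.kg_fin F K ιK
  have hpos : 0 < Module.finrank F (KG F K' (emb ιK : K' →ₐ[ℚ] AlgebraicClosure F)) := by
    have : FiniteDimensional F (KG F K' (emb ιK : K' →ₐ[ℚ] AlgebraicClosure F)) := H13R.kg_fin F K' _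
    exact Module.finrank_pos
  have t3 : IsScalarTower F (KG F K' (emb ιK : K' →ₐ[ℚ] AlgebraicClosure F)) (KG F K ιK) :=
    IsScalarTower.of_algebraMap_eq fun x => rfl
  have hdL : Module.finrank (KG F K' (emb ιK : K' →ₐ[ℚ] AlgebraicClosure F)) (KG F K ιK) = p ^ t := by
    have h1 := Module.finrank_mul_finrank F (KG F K' (emb ιK : K' →ₐ[ℚ] AlgebraicClosure F)) (KG F K ιK)
    rw [hd2F] at h1
    exact Nat.eq_of_mul_eq_mul_left hpos h1
  have hGL : IsGalois (KG F K' (emb ιK : K' →ₐ[ℚ] AlgebraicClosure F)) (KG F K ιK) := q_galL hp h ιK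
  have hKpos : 0 < Module.finrank ℚ K := Module.finrank_pos
  have hd2 : Module.finrank K (KG F K ιK) = d := by
    have h1 := Module.finrank_mul_finrank ℚ K (KG F K ιK)
    rw [hdK, mul_comm d] at h1
    exact Nat.eq_of_mul_eq_mul_left hKpos h1
  have hQ : Function.Bijective (algebraMap K' (KG F K' (emb ιK : K' →ₐ[ℚ] AlgebraicClosure F))) ∨
      QuadG F K' (KG F K' (emb ιK : K' →ₐ[ℚ] AlgebraicClosure F)) := by
    rcases kg_dich F K' (emb ιK : K' →ₐ[ℚ] AlgebraicClosure F) with ⟨f, hf⟩ | hq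
    · exact Or.inl (q_bijK K' _ f hf)
    · exact Or.inr hq
  have hr := H41S.ram_es (KG F K' (emb ιK : K' →ₐ[ℚ] AlgebraicClosure F)) (KG F K ιK) hle w' hGL
  exact ze_abs (q_cycl h) hp hp2 hdeg hdL (by omega) hU hH hQ w' hw'.1 (hr.1 hw'.2.1) hw'.2.2

/-- The condition on the residue fields, for the fields generated by F. -/
theorem ze_nsp (hp : p.Prime) (hp2 : p ≠ 2) (h : H13V.CycT p n t M K' K) (hU : UnrP p K)
    {W : WeierstrassCurve ℤ} {Om : ℂ} {m : Ideal (𝓞 F)} {ψ : Ideal (𝓞 F) →*₀ 𝓞 F} (hH : BaseH F (W⁄(𝓞 F)) Om m ψ)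
    (ιK : K →ₐ[ℚ] AlgebraicClosure F) (nsp : ∀ w ∈ AnR p W K' K, Ideal.absNorm (w.asIdeal.under (𝓞 M)) ≠ Ideal.absNorm w.asIdeal)
    (w' : Pl (KG F K' (emb ιK : K' →ₐ[ℚ] AlgebraicClosure F)))
    (hw' : w' ∈ AnW p (W⁄(𝓞 F)) (KG F K' (emb ιK : K' →ₐ[ℚ] AlgebraicClosure F)) (KG F K ιK)) :
    letI := H55P.s13_alg (q_leT h ιK).1
    Ideal.absNorm (w'.asIdeal.under (𝓞 (KG F M (emb ιK : M →ₐ[ℚ] AlgebraicClosure F)))) ≠ Ideal.absNorm w'.asIdeal := by
  obtain ⟨w, hw, hwR, -, hN, -⟩ := ze_sets hp hp2 h hU hH ιK w' hw'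
  obtain ⟨d, hd, hdK, hdK', hdM⟩ := q_degT hp hp2 h ιK
  have ht := h.tow
  have hgal := h.gal
  have hcyc := h.cyc
  letI aK' : Algebra K' (KG F K' (emb ιK : K' →ₐ[ℚ] AlgebraicClosure F)) := (KGmap F K' (emb ιK)).toAlgebra
  letI aM : Algebra M (KG F M (emb ιK : M →ₐ[ℚ] AlgebraicClosure F)) := (KGmap F M (emb ιK)).toAlgebra
  letI aL : Algebra (KG F M (emb ιK : M →ₐ[ℚ] AlgebraicClosure F)) (KG F K' (emb ιK : K' →ₐ[ℚ] AlgebraicClosure F)) :=
    H55P.s13_alg (q_leT h ιK).1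
  letI aML : Algebra M (KG F K' (emb ιK : K' →ₐ[ℚ] AlgebraicClosure F)) :=
    ((algebraMap K' (KG F K' (emb ιK : K' →ₐ[ℚ] AlgebraicClosure F))).comp (algebraMap M K')).toAlgebra
  have t1 : IsScalarTower M K' (KG F K' (emb ιK : K' →ₐ[ℚ] AlgebraicClosure F)) := IsScalarTower.of_algebraMap_eq fun x => rfl
  have t2 : IsScalarTower M (KG F M (emb ιK : M →ₐ[ℚ] AlgebraicClosure F)) (KG F K' (emb ιK : K' →ₐ[ℚ] AlgebraicClosure F)) :=
    IsScalarTower.of_algebraMap_eq fun x => Subtype.ext (by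
      show (emb ιK : K' →ₐ[ℚ] AlgebraicClosure F) (algebraMap M K' x) = (emb ιK : M →ₐ[ℚ] AlgebraicClosure F) x
      rw [emb_apply, emb_apply, ← IsScalarTower.algebraMap_apply M K' K])
  have hab : IsMulCommutative (K ≃ₐ[M] K) := ⟨⟨fun a b => by
    letI : CommGroup (K ≃ₐ[M] K) := IsCyclic.commGroup
    exact mul_comm a b⟩⟩
  have hG1 : IsAbelianGalois M K := { (inferInstance : IsGalois M K) with }
  have hG2 : IsAbelianGalois M K' := IsAbelianGalois.tower_bot M K' K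
  have g1 : IsGalois M K' := inferInstance
  let v' : Pl (KG F M (emb ιK : M →ₐ[ℚ] AlgebraicClosure F)) := HeightOneSpectrum.under _ w'
  have hv' : w'.asIdeal.under (𝓞 (KG F M (emb ιK : M →ₐ[ℚ] AlgebraicClosure F))) = v'.asIdeal := rfl
  let v : Pl M := HeightOneSpectrum.under _ v'
  have hv : v'.asIdeal.under (𝓞 M) = v.asIdeal := rfl
  have hvw : w.asIdeal.under (𝓞 M) = v.asIdeal := by
    rw [hw, Ideal.under_under, ← hv, ← hv', Ideal.under_under]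
  have hMpos : 0 < Module.finrank ℚ M := Module.finrank_pos
  have hd2 : Module.finrank M (KG F M (emb ιK : M →ₐ[ℚ] AlgebraicClosure F)) = d := by
    have h1 := Module.finrank_mul_finrank ℚ M (KG F M (emb ιK : M →ₐ[ℚ] AlgebraicClosure F))
    rw [hdM, mul_comm d] at h1
    exact Nat.eq_of_mul_eq_mul_left hMpos h1
  have h1 := ze_le2 (by omega) v v' hv
  have h2 := ze_lt hp hp2 h.sub v w hvw (by rw [← hvw]; exact nsp w hwR)
  rw [hv', hN]
  exact (lt_of_le_of_lt h1 h2).ne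

end H41P
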