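import Mathlib
import Pool.Agent.Lib.H41S.D

/-! # H41P: the auxiliary characters: definition -/

open NumberField IsDedekindDomain

namespace H41P

open H55R (Pl pv)
open H41S (CH)

/-- Every ray class character χ of order dividing p^N whose modulus is divisible only by the primes dividing g and by the primes in R, and whose
p^k-th power has modulus g, is the product of a character χ₀ which is unramified at the primes in R and of characters ψ v (v in R) of order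
dividing p^k, ψ v unramified at the other primes in R; the other primes dividing the moduli divide g or have the property G. -/
def AuxAll (p : ℕ) (L : Type) [Field L] [NumberField L] (G : Pl L → Prop) : Prop :=
  ∀ (R : Finset (Pl L)) (N k : ℕ) (f g : Ideal (𝓞 L)) (χ : Pl L → ℂˣ), 1 ≤ k → k ≤ N → CH p (p ^ N) f χ → g ≠ ⊥ →
    IsCoprime g (Ideal.span {(p : 𝓞 L)}) → (∀ w : Pl L, f ≤ w.asIdeal → g ≤ w.asIdeal ∨ w ∈ R) → (∀ v ∈ R, ¬ g ≤ v.asIdeal) →
    (∀ v ∈ R, (p : 𝓞 L) ∉ v.asIdeal) →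
    (∀ x : 𝓞 L, x ≠ 0 → IsCoprime (Ideal.span {x}) f → x - 1 ∈ g → pv χ (Ideal.span {x}) ^ p ^ k = 1) →
    ∃ (f₀ : Ideal (𝓞 L)) (χ₀ : Pl L → ℂˣ) (ψ : Pl L → Pl L → ℂˣ),
      (∀ w : Pl L, f₀ ≤ w.asIdeal → g ≤ w.asIdeal ∨ G w) ∧ (∀ v ∈ R, ¬ f₀ ≤ v.asIdeal) ∧ CH p (p ^ N) f₀ χ₀ ∧
      (∀ v ∈ R, CH p (p ^ k) (f₀ * v.asIdeal) (ψ v)) ∧
      ∀ w : Pl L, ¬ f₀ ≤ w.asIdeal → w ∉ R → χ w = χ₀ w * ∏ v ∈ R, ψ v w

end H41P
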