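import Mathlib

/-! # H41P, N1: values of an integral polynomial in several variables whose values with some variables equal to 1 are known

(T+): the multi-variable congruence. κ is the set of the primes, B S the value when the variables in S are not 1, E k S the factor at k. -/

namespace H41P

/-- Products of strict inequalities. -/
theorem prod_lt {κ Γ : Type*} [LinearOrderedCommGroupWithZero Γ] {T : Finset κ} (hT : T.Nonempty) {ε e : κ → Γ}
    (h : ∀ k ∈ T, ε k < e k) : ∏ k ∈ T, ε k < ∏ k ∈ T, e k := by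
  classical
  induction hT using Finset.Nonempty.cons_induction with
  | singleton a =>
    rw [Finset.prod_singleton, Finset.prod_singleton]
    exact h a (Finset.mem_singleton_self a)
  | cons a s ha hs ih =>
    rw [Finset.prod_cons, Finset.prod_cons]
    exact mul_lt_mul'' (h a (Finset.mem_cons_self a s)) (ih fun k hk => h k (Finset.mem_cons_of_mem hk)) zero_le zero_le

/-- The alternating sum. -/
theorem alt_sum {κ I : Type*} [Fintype I] [DecidableEq κ] (V : ValuationSubring ℂ) (T : Finset κ) (c : I → ℂ) (z : I → κ → ℂ)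
    (ε : κ → V.ValueGroup) (hc : ∀ i, V.valuation (c i) ≤ 1) (hz : ∀ i, ∀ k ∈ T, V.valuation (z i k - 1) ≤ ε k) :
    V.valuation (∑ S ∈ T.powerset, (-1) ^ (T \ S).card * ∑ i, c i * ∏ k ∈ S, z i k) ≤ ∏ k ∈ T, ε k := by
  have e1 : ∑ S ∈ T.powerset, (-1) ^ (T \ S).card * ∑ i, c i * ∏ k ∈ S, z i k = ∑ i, c i * ∏ k ∈ T, (z i k - 1) := by
    have e2 : ∀ i, ∏ k ∈ T, (z i k - 1) = ∑ S ∈ T.powerset, (∏ k ∈ S, z i k) * (-1) ^ (T \ S).card := by
      intro i
      have e3 := Finset.prod_add (fun k => z i k) (fun _ => (-1 : ℂ)) T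
      simp only [← sub_eq_add_neg] at e3
      rw [e3]
      refine Finset.sum_congr rfl fun S _ => ?_
      rw [Finset.prod_const]
    simp only [e2, Finset.mul_sum]
    rw [Finset.sum_comm]
    refine Finset.sum_congr rfl fun i _ => Finset.sum_congr rfl fun S _ => ?_
    ring
  rw [e1]
  refine Valuation.map_sum_le _ fun i _ => ?_
  rw [map_mul, map_prod]
  calc V.valuation (c i) * ∏ k ∈ T, V.valuation (z i k - 1) ≤ 1 * ∏ k ∈ T, ε k :=
        mul_le_mul' (hc i) (Finset.prod_le_prod' fun k hk => hz i k hk)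
    _ = ∏ k ∈ T, ε k := one_mul _

/-- THE CONGRUENCE. -/
theorem num {κ : Type*} [DecidableEq κ] (V : ValuationSubring ℂ) (B : Finset κ → ℂ) (E : κ → Finset κ → ℂ) (e ε : κ → V.ValueGroup)
    (T₀ : Finset κ) (hB : V.valuation (B ∅) ≤ 1) (hE : ∀ k ∈ T₀, ∀ S ⊆ T₀, V.valuation (E k S) = e k)
    (hε : ∀ k ∈ T₀, ε k < e k)
    (h1 : ∀ T ⊆ T₀, V.valuation (∑ S ∈ T.powerset, (-1) ^ (T \ S).card * ((∏ k ∈ T \ S, E k S) * B S)) ≤ ∏ k ∈ T, ε k)
    (h2 : ∀ T ⊆ T₀, V.valuation (∑ S ∈ T.powerset, (-1) ^ (T \ S).card * ∏ k ∈ T, E k S) ≤ ∏ k ∈ T, ε k)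
    (T : Finset κ) (hT₀ : T ⊆ T₀) (hT : T.Nonempty) :
    V.valuation (B T - B ∅ * ∏ k ∈ T, E k T) < ∏ k ∈ T, e k := by
  induction T using Finset.strongInduction with
  | H T ih =>
    have he0 : ∀ k ∈ T₀, e k ≠ 0 := fun k hk => (lt_of_le_of_lt zero_le (hε k hk)).ne'
    obtain ⟨Q, hQ⟩ : ∃ Q : Finset κ → ℂ, ∀ S, Q S = (∏ k ∈ T \ S, E k S) * B S - B ∅ * ∏ k ∈ T, E k S := ⟨_, fun _ => rfl⟩
    have hlt := prod_lt hT fun k hk => hε k (hT₀ hk)
    have hne : ∏ k ∈ T, e k ≠ 0 := (lt_of_le_of_lt zero_le hlt).ne'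
    -- the proper subsets
    have hQS : ∀ S ∈ T.powerset.erase T, V.valuation (Q S) < ∏ k ∈ T, e k := by
      intro S hS
      rw [Finset.mem_erase, Finset.mem_powerset] at hS
      obtain ⟨hne', hST⟩ := hS
      rcases S.eq_empty_or_nonempty with rfl | hSn
      · rw [hQ, Finset.sdiff_empty, mul_comm, sub_self, map_zero]
        exact zero_lt_iff.2 hne
      · have h3 := ih S ⟨hST, fun h => hne' (Finset.Subset.antisymm hST h)⟩ (hST.trans hT₀) hSn
        have h4 : Q S = (∏ k ∈ T \ S, E k S) * (B S - B ∅ * ∏ k ∈ S, E k S) := by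
          rw [hQ, ← Finset.prod_sdiff hST]
          ring
        have h5 : V.valuation (∏ k ∈ T \ S, E k S) = ∏ k ∈ T \ S, e k := by
          rw [map_prod]
          exact Finset.prod_congr rfl fun k hk => hE k (hT₀ (Finset.mem_sdiff.1 hk).1) S (hST.trans hT₀)
        rw [h4, map_mul, h5, ← Finset.prod_sdiff hST]
        have h6 : ∏ k ∈ T \ S, e k ≠ 0 := Finset.prod_ne_zero_iff.2 fun k hk => he0 k (hT₀ (Finset.mem_sdiff.1 hk).1)
        exact mul_lt_mul_of_pos_left h3 (zero_lt_iff.2 h6)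
    -- the alternating sum
    have hsum : V.valuation (∑ S ∈ T.powerset, (-1) ^ (T \ S).card * Q S) < ∏ k ∈ T, e k := by
      have e1 : ∑ S ∈ T.powerset, (-1) ^ (T \ S).card * Q S =
          (∑ S ∈ T.powerset, (-1) ^ (T \ S).card * ((∏ k ∈ T \ S, E k S) * B S)) -
            B ∅ * ∑ S ∈ T.powerset, (-1) ^ (T \ S).card * ∏ k ∈ T, E k S := by
        rw [Finset.mul_sum, ← Finset.sum_sub_distrib]
        refine Finset.sum_congr rfl fun S _ => ?_
        rw [hQ]
        ring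
      rw [e1]
      refine lt_of_le_of_lt (V.valuation.map_sub _ _) (max_lt (lt_of_le_of_lt (h1 T hT₀) hlt) ?_)
      rw [map_mul]
      calc V.valuation (B ∅) * V.valuation (∑ S ∈ T.powerset, (-1) ^ (T \ S).card * ∏ k ∈ T, E k S) ≤
            1 * ∏ k ∈ T, ε k := mul_le_mul' hB (h2 T hT₀)
        _ = ∏ k ∈ T, ε k := one_mul _
        _ < _ := hlt
    have hmem : T ∈ T.powerset := Finset.mem_powerset_self T
    rw [← Finset.add_sum_erase _ _ hmem, Finset.sdiff_self, Finset.card_empty, pow_zero, one_mul] at hsum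
    have hQT : Q T = B T - B ∅ * ∏ k ∈ T, E k T := by
      rw [hQ, Finset.sdiff_self, Finset.prod_empty, one_mul]
    rw [← hQT]
    have h7 : V.valuation (∑ S ∈ T.powerset.erase T, (-1) ^ (T \ S).card * Q S) < ∏ k ∈ T, e k := by
      refine Valuation.map_sum_lt _ hne fun S hS => ?_
      rw [map_mul, map_pow, Valuation.map_neg, map_one, one_pow, one_mul]
      exact hQS S hS
    have h8 : Q T = (Q T + ∑ S ∈ T.powerset.erase T, (-1) ^ (T \ S).card * Q S) -
        ∑ S ∈ T.powerset.erase T, (-1) ^ (T \ S).card * Q S := by ring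
    rw [h8]
    exact lt_of_le_of_lt (V.valuation.map_sub _ _) (max_lt hsum h7)

/-- The valuation. -/
theorem num_val {κ : Type*} [DecidableEq κ] (V : ValuationSubring ℂ) (B : Finset κ → ℂ) (E : κ → Finset κ → ℂ) (e ε : κ → V.ValueGroup)
    (T₀ : Finset κ) (hB : V.valuation (B ∅) = 1) (hE : ∀ k ∈ T₀, ∀ S ⊆ T₀, V.valuation (E k S) = e k)
    (hε : ∀ k ∈ T₀, ε k < e k)
    (h1 : ∀ T ⊆ T₀, V.valuation (∑ S ∈ T.powerset, (-1) ^ (T \ S).card * ((∏ k ∈ T \ S, E k S) * B S)) ≤ ∏ k ∈ T, ε k)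
    (h2 : ∀ T ⊆ T₀, V.valuation (∑ S ∈ T.powerset, (-1) ^ (T \ S).card * ∏ k ∈ T, E k S) ≤ ∏ k ∈ T, ε k) :
    V.valuation (B T₀) = ∏ k ∈ T₀, e k := by
  rcases T₀.eq_empty_or_nonempty with h0 | h0
  · rw [h0, hB, Finset.prod_empty]
  · have h3 := num V B E e ε T₀ hB.le hE hε h1 h2 T₀ (Finset.Subset.refl _) h0
    have h4 : V.valuation (B ∅ * ∏ k ∈ T₀, E k T₀) = ∏ k ∈ T₀, e k := by
      rw [map_mul, hB, one_mul, map_prod]
      exact Finset.prod_congr rfl fun k hk => hE k hk T₀ (Finset.Subset.refl _)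
    have h5 : B T₀ = (B T₀ - B ∅ * ∏ k ∈ T₀, E k T₀) + B ∅ * ∏ k ∈ T₀, E k T₀ := by ring
    rw [h5, Valuation.map_add_eq_of_lt_right _ (by rw [h4]; exact h3), h4]

end H41P
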