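import Mathlib
import Pool.Agent.Lib.H41S.A3
import Pool.Agent.Lib.H41P.N1

/-! # H41P, N2: the smoothed L-values of all characters of a given modulus are the values of one element of the group ring over O_V -/

open NumberField IsDedekindDomain

namespace H41P

open H41S
open H55N H55P
open H55B (g)
open H55R (Pl es fs pv tI)

variable {F : Type} [Field F] [NumberField F] [IQ F] {K : Type} [Field K] [NumberField K]
  [Algebra F K]

/-- The evaluation of the characters at an ideal class (c)/b. -/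
noncomputable def evC (c b : Ideal (𝓞 K)) : (Pl K → ℂˣ) →* ℂˣ where
  toFun φ := pv φ c * (pv φ b)⁻¹
  map_one' := by rw [H55R.pv_one_fun, H55R.pv_one_fun, inv_one, mul_one]
  map_mul' φ φ' := by
    rw [H55R.pv_mul_fun, H55R.pv_mul_fun, mul_inv]
    exact mul_mul_mul_comm _ _ _ _

omit [Algebra F K] in
theorem evC_apply (c b : Ideal (𝓞 K)) (φ : Pl K → ℂˣ) : evC c b φ = pv φ c * (pv φ b)⁻¹ := rfl

theorem kappaM (p : ℕ) (hp : p.Prime) {M : Ideal (𝓞 F)} {ψ : Ideal (𝓞 F) →*₀ 𝓞 F}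
    (h : IsHecke M ψ) (f : Ideal (𝓞 K)) (hf : f ≠ ⊥) (b : Ideal (𝓞 K)) (hb : b ≠ ⊥)
    (hbc : IsCoprime b (Ideal.span {(p : 𝓞 K)} * (mK K M * f))) (c₀ : 𝓞 K) (hc : c₀ ∈ b)
    (hpr : ∀ w : HeightOneSpectrum (𝓞 K), mK K M * f ≤ w.asIdeal → c₀ ∉ w.asIdeal * b) :
    ∃ κ' : ℂ, (∀ V : ValuationSubring ℂ, V.valuation (p : ℂ) < 1 → V.valuation κ' = 1) ∧
      ∀ (N : ℕ) (φ : Pl K → ℂˣ), CH p N f φ →
      ∀ x ∈ XS (mK K M * f * b) c₀, ∀ a : Ideal (𝓞 K), a * b = Ideal.span {x} → x ≠ 0 ∧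
        tw ψ f φ 1 a = κ' * ((pv φ (Ideal.span {c₀}) * (pv φ b)⁻¹ : ℂˣ) : ℂ) *
          (starRingEnd ℂ) (embF F (Algebra.norm F (x : K))) := by
  classical
  have hm0 : mK K M ≠ ⊥ := PT2_mK M h.ne
  have hJ0 : mK K M * f ≠ ⊥ := mul_ne_zero hm0 hf
  have hbJ : IsCoprime b (mK K M * f) := hbc.of_mul_right_right
  have hbp : IsCoprime b (Ideal.span {(p : 𝓞 K)}) := hbc.of_mul_right_left
  have hbM : IsCoprime b (mK K M) := hbJ.of_mul_right_left
  have hbf : IsCoprime b f := hbJ.of_mul_right_right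
  have hcop : IsCoprime (Ideal.span {c₀}) (mK K M * f) := by
    rw [Ideal.isCoprime_iff_sup_eq]
    by_contra hne
    obtain ⟨P, hP, hle⟩ := Ideal.exists_le_maximal _ hne
    have hPf : mK K M * f ≤ P := le_sup_right.trans hle
    have hPc : Ideal.span {c₀} ≤ P := le_sup_left.trans hle
    have hP0 : P ≠ ⊥ := by
      rintro rfl
      exact hJ0 (le_bot_iff.1 hPf)
    have hbP : ¬ b ≤ P := by
      intro h1
      rw [Ideal.isCoprime_iff_sup_eq] at hbJ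
      exact hP.ne_top (top_le_iff.1 (hbJ ▸ sup_le h1 hPf))
    obtain ⟨d, hd⟩ := Ideal.dvd_iff_le.2 ((Ideal.span_singleton_le_iff_mem b).2 hc)
    rw [hd] at hPc
    have hdP : d ≤ P := (hP.isPrime.mul_le.1 hPc).resolve_left hbP
    refine hpr ⟨P, hP.isPrime, hP0⟩ hPf ?_
    have h1 : c₀ ∈ b * d := by rw [← hd]; exact Ideal.mem_span_singleton_self _
    rw [mul_comm]
    exact Ideal.mul_mono_right hdP h1
  have hXcop : ∀ x ∈ XS (mK K M * f * b) c₀,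
      IsCoprime (Ideal.span {x}) (mK K M * f) := by
    intro x hx
    have hx' : x - c₀ ∈ mK K M * f :=
      Ideal.mul_le_left (show x - c₀ ∈ mK K M * f * b from hx)
    rw [Ideal.isCoprime_iff_exists] at hcop ⊢
    obtain ⟨i, hi, j, hj, hij⟩ := hcop
    obtain ⟨r, rfl⟩ := Ideal.mem_span_singleton.1 hi
    refine ⟨x * r, Ideal.mul_mem_right _ _ (Ideal.mem_span_singleton_self x),
      j - (x - c₀) * r, Ideal.sub_mem _ hj (Ideal.mul_mem_right _ _ hx'), ?_⟩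
    linear_combination hij
  have hcM : IsCoprime (Ideal.span {c₀}) (mK K M) := hcop.of_mul_right_left
  have hc0 : c₀ ≠ 0 := PT2_ne M h.ntop c₀ hcM
  have hc0' : Ideal.span {c₀} ≠ ⊥ := fun h1 => hc0 (Ideal.span_singleton_eq_bot.1 h1)
  have hPb : PsiP K ψ b ≠ 0 := (PsiP_ne h b hb).2 hbM
  have hNc := (PsiP_cop h (Ideal.span {c₀}) hc0').2 hcM
  rw [Ideal.relNorm_singleton] at hNc
  obtain ⟨nc, hnc⟩ : ∃ nc, nc = Algebra.intNorm (𝓞 F) (𝓞 K) c₀ := ⟨_, rfl⟩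
  rw [← hnc] at hNc
  have hnc0 : nc ≠ 0 := by
    rintro rfl
    have h1 := Ideal.relNorm_singleton (𝓞 F) c₀
    rw [← hnc, Ideal.span_singleton_eq_bot.2 rfl] at h1
    exact hc0' (Ideal.relNorm_eq_bot_iff.1 h1)
  obtain ⟨A, hA⟩ : ∃ A, A = (starRingEnd ℂ) (eF F (ψ (Ideal.span {nc}))) := ⟨_, rfl⟩
  obtain ⟨B, hB⟩ : ∃ B, B = (starRingEnd ℂ) (eF F nc) := ⟨_, rfl⟩
  have hB0 : B ≠ 0 := by
    rw [hB, map_ne_zero]
    exact eF_ne hnc0
  refine ⟨A / (B * PsiP K ψ b), ?_, fun N φ hφ => ?_⟩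
  · intro V hV
    have h1 := (PsiP_unit p hp h b hb hbM hbp V hV).1
    obtain ⟨u, hu⟩ := Ideal.span_singleton_eq_span_singleton.1 (h.gen _ hNc)
    have h2 : V.valuation A = V.valuation B := by
      rw [hB, ← hu, map_mul, map_mul, map_mul, PT2_unit u V, mul_one, hA]
    rw [map_div₀, map_mul, h1, mul_one, h2]
    exact div_self ((Valuation.ne_zero_iff _).2 hB0)
  · intro x hx a hab
    have hxc := hXcop x hx
    have hxM : IsCoprime (Ideal.span {x}) (mK K M) := hxc.of_mul_right_left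
    have hx0 : x ≠ 0 := PT2_ne M h.ntop x hxM
    have hx0' : Ideal.span {x} ≠ ⊥ := fun h1 => hx0 (Ideal.span_singleton_eq_bot.1 h1)
    have hxJ : x - c₀ ∈ mK K M * f :=
      Ideal.mul_le_left (show x - c₀ ∈ mK K M * f * b from hx)
    have hxm : x - c₀ ∈ mK K M := Ideal.mul_le_left hxJ
    have hxf : x - c₀ ∈ f := Ideal.mul_le_right hxJ
    have hNx := (PsiP_cop h (Ideal.span {x}) hx0').2 hxM
    rw [Ideal.relNorm_singleton] at hNx
    have hper := h.per _ _ hNx hNc (by rw [hnc]; exact intNorm_cong M x c₀ hxm)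
    have ha0 : a ≠ ⊥ := by
      rintro rfl
      apply hx0
      rw [← Ideal.span_singleton_eq_bot, ← hab]
      exact zero_mul b
    have haf : IsCoprime a f := by
      have h1 : IsCoprime (a * b) f := by rw [hab]; exact hxc.of_mul_right_right
      exact h1.of_mul_left_left
    have hPx : PsiP K ψ (Ideal.span {x}) * B = A * (starRingEnd ℂ) (embF F (Algebra.norm F (x : K))) := by
      rw [PsiP_apply, Ideal.relNorm_singleton, hA, hB, PT2_norm, ← map_mul, ← map_mul, ← map_mul,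
        ← map_mul, hper]
    have hPa : PsiP K ψ a = A / (B * PsiP K ψ b) *
        (starRingEnd ℂ) (embF F (Algebra.norm F (x : K))) := by
      have h1 : PsiP K ψ a * PsiP K ψ b = PsiP K ψ (Ideal.span {x}) := by rw [← map_mul, hab]
      rw [div_mul_eq_mul_div, ← hPx, ← h1, eq_div_iff (mul_ne_zero hB0 hPb)]
      ring
    have hχa : pv φ a = pv φ (Ideal.span {c₀}) * (pv φ b)⁻¹ := by
      have h1 : pv φ a * pv φ b = pv φ (Ideal.span {x}) := by rw [← H55R.pv_mul φ ha0 hb, hab]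
      rw [hφ.per x c₀ hx0 hc0 hxc.of_mul_right_right hxf] at h1
      rw [← h1, mul_inv_cancel_right]
    refine ⟨hx0, ?_⟩
    rw [tw_apply ψ f φ 1 ha0 haf, hPa, hχa, pow_one]
    ring


/-- The smoothed L-values of all characters of modulus f. -/
theorem smvM (p : ℕ) (hp : p.Prime) {M : Ideal (𝓞 F)} {ψ : Ideal (𝓞 F) →*₀ 𝓞 F}
    (h : IsHecke M ψ) (hMp : IsCoprime M (Ideal.span {(p : 𝓞 F)})) (hK : UnrP p K)
    (Ac Bc Om : ℂ) (hper : Per F Ac Bc Om) (V : ValuationSubring ℂ)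
    (hV : V.valuation (p : ℂ) < 1) (hg : GoodV Ac Bc V) (f : Ideal (𝓞 K)) (hf : f ≠ ⊥)
    (hfp : IsCoprime f (Ideal.span {(p : 𝓞 K)})) {m : ℕ}
    (hm : Module.finrank F K = m + 1) :
    ∃ Bad : Set (Ideal (𝓞 K)), Bad.Finite ∧
      ∀ (c : Fin (m + 1) × Fin 2 → Ideal (𝓞 K)) (q : Fin (m + 1) × Fin 2 → ℕ), Smooth c q →
        (∀ i, (c i).IsPrime ∧ c i ∉ Bad) → ∃ (I : Type) (_ : Fintype I) (cf : I → ℂ) (ev : I → (Pl K → ℂˣ) →* ℂˣ),
          (∀ i, V.valuation (cf i) ≤ 1) ∧ ∀ (N : ℕ) (φ : Pl K → ℂˣ), 0 < N → CH p N f φ → ∃ Λ : ℂ → ℂ,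
          AnalyticOnNhd ℂ Λ {s | 1 / 2 < s.re} ∧
          (∀ s : ℂ, 3 / 2 < s.re → HasSum (tm (tw ψ f φ 1) s) (Λ s)) ∧
          (∏ i, (1 - (q i : ℂ) * tm (tw ψ f φ 1) 1 (c i))) * (Λ 1 / Om ^ Module.finrank F K) =
            ∑ i, cf i * (ev i φ : ℂ) := by
  classical
  obtain ⟨l, hl⟩ := h.toMod p hMp
  obtain ⟨w0, hw0l, hw0M⟩ := pt9_prime K hl
  have hJM : mK K M * f ≤ mK K M := Ideal.mul_le_left
  have hJ0 : mK K M * f ≠ ⊥ := mul_ne_zero (pt9_mK_ne h.ne) hf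
  have hJ1 : mK K M * f ≠ ⊤ := by
    intro h1
    apply w0.isPrime.ne_top
    rw [← top_le_iff, ← h1]
    exact hJM.trans hw0M
  have hg0 : Ideal.span {(p : 𝓞 K)} * (mK K M * f) ≠ ⊥ := by
    refine mul_ne_zero ?_ hJ0
    have h1 : Ideal.span {(p : 𝓞 K)} ≠ ⊥ := by
      rw [Ne, Ideal.span_singleton_eq_bot, Nat.cast_eq_zero]
      exact hp.ne_zero
    exact h1
  have hgJ : Ideal.span {(p : 𝓞 K)} * (mK K M * f) ≤ mK K M * f := Ideal.mul_le_right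
  obtain ⟨ι, hι, b, c₀, T, hcd⟩ := exists_CDJ (mK K M * f) (Ideal.span {(p : 𝓞 K)} * (mK K M * f))
    hJ0 hg0 hgJ hJ1
  have hbp : ∀ i, IsCoprime (b i) (Ideal.span {(p : 𝓞 K)}) := fun i =>
    (hcd.cop i).of_mul_right_left
  have hlam : ∀ i, c₀ i ∉ Ideal.span {algebraMap (𝓞 F) (𝓞 K) l} * b i := by
    intro i hi
    refine hcd.prim i w0 (hJM.trans hw0M) (Ideal.mul_mono_left ?_ hi)
    rw [Ideal.span_singleton_le_iff_mem]
    exact hw0l
  have hcore := fun i => core p hp hl K m hm hK (b i) f (hcd.ne i) (hbp i) hf hfp (c₀ i)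
    (hcd.mem i) (hlam i)
  choose Bad hBad hcore using hcore
  have hnop := fun i => nopoles p hp hl K m hm (b i) f (hcd.ne i) hf (c₀ i) (hcd.mem i) (hlam i)
  choose Z0 hZ0 hZ0s using hnop
  refine ⟨(⋃ i, Bad i) ∪ ⋃ i, {w : Ideal (𝓞 K) | b i ≤ w},
    (Set.finite_iUnion hBad).union (Set.finite_iUnion fun i => pt9_finite (b i) (hcd.ne i)), ?_⟩
  intro c q hs hcb
  have hcp : ∀ j, (c j).IsPrime := fun j => (hcb j).1
  have hbc : ∀ i j, IsCoprime (b i) (c j) := by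
    intro i j
    rw [Ideal.isCoprime_iff_sup_eq]
    by_contra h
    have hmax : (c j).IsMaximal := (hcp j).isMaximal (pt3_ne hs j)
    have h1 : c j ≤ b i ⊔ c j := le_sup_right
    have h2 : b i ⊔ c j = c j := (hmax.eq_of_le h h1).symm
    apply (hcb j).2
    refine Or.inr (Set.mem_iUnion.2 ⟨i, ?_⟩)
    show b i ≤ c j
    rw [← h2]
    exact le_sup_left
  have hZex := fun i => hcore i c q hs (fun j hj => (hcb j).2 (Or.inl (Set.mem_iUnion.2 ⟨i, hj⟩)))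
  choose Z hZa hZs hZi using hZex
  have hkap := fun i => kappaM p hp h f hf (b i) (hcd.ne i) (hcd.cop i) (c₀ i)
    (hcd.mem i) (hcd.prim i)
  choose κ' hκu hκ using hkap
  have hint : ∀ i, V.valuation (κ' i * ((Ideal.absNorm (b i) : ℕ) : ℂ) * (Z i 1 / Om ^ (m + 1))) ≤ 1 := by
    intro i
    rw [map_mul, map_mul, hκu i V hV, one_mul]
    exact mul_le_one' (pt9_nat V _) (hZi i Ac Bc Om hper V hV hg)
  have hNb : ∀ i, Ideal.absNorm (b i) ≠ 0 := fun i => by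
    rw [Ne, Ideal.absNorm_eq_zero_iff]
    exact hcd.ne i
  have hZsum : ∀ i s, 3 / 2 < s.re → HasSum (fun x : T i => gw c q x * nf F s (x : 𝓞 K)) (Z i s) :=
    fun i s hs' => hZs i (T i) (hcd.trans i) s hs'
  refine ⟨ι, hι, fun i => κ' i * ((Ideal.absNorm (b i) : ℕ) : ℂ) * (Z i 1 / Om ^ (m + 1)),
    fun i => evC (Ideal.span {c₀ i}) (b i), hint, fun N φ hN hφ => ?_⟩
  obtain ⟨ζ, hζ⟩ : ∃ ζ : ι → ℂ, ∀ i, ζ i = ((pv φ (Ideal.span {c₀ i}) * (pv φ (b i))⁻¹ : ℂˣ) : ℂ) := ⟨_, fun _ => rfl⟩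
  have hC : CoefP F (mK K M * f) ι b c₀ (tw ψ f φ 1) (fun i => κ' i * ζ i) :=
    coef_mulP h (fun a ha => H55R.tI_zero _ _ ha) (fun a => hφ.norm_le hN.ne' 1 a)
      (fun i x hx a ha => ⟨(hκ i N φ hφ x hx a ha).1, by rw [hζ]; exact (hκ i N φ hφ x hx a ha).2⟩)
  have e1 : ∀ s : ℂ, 3 / 2 < s.re →
      (∏ i, (1 - (q i : ℂ) * tm (tw ψ f φ 1) s (c i))) *
      ∑' a, tm (tw ψ f φ 1) s a =
        ∑ i, κ' i * ζ i * (Ideal.absNorm (b i) : ℂ) ^ s * Z i s :=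
    fun s hs' => series_eqP hgJ hJ1 hcd hC hs hcp hbc Z s hs' fun i => hZsum i s hs'
  have e3 : ∀ s : ℂ, 3 / 2 < s.re → HasSum (tm (tw ψ f φ 1) s)
      (∑ i, κ' i * ζ i * (Ideal.absNorm (b i) : ℂ) ^ s * Z0 i s) :=
    fun s hs' => series_eq0P hgJ hJ1 hcd hC Z0 s fun i => hZ0s i (T i) (hcd.trans i) s hs'
  have hGa : AnalyticOnNhd ℂ
      (fun s : ℂ => ∑ i, κ' i * ζ i * (Ideal.absNorm (b i) : ℂ) ^ s * Z i s) {s | 1 / 2 < s.re} := by
    intro s hs'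
    exact Finset.analyticAt_fun_sum _ fun i _ =>
      (analyticAt_const.mul (pt3_pow_analytic _ (hNb i) Set.univ s trivial)).mul (hZa i s hs')
  have hZ0a : AnalyticOnNhd ℂ
      (fun s : ℂ => ∑ i, κ' i * ζ i * (Ideal.absNorm (b i) : ℂ) ^ s * Z0 i s)
      {s | 3 / 2 - 1 / (2 * (m + 1 : ℝ)) < s.re} := by
    intro s hs'
    exact Finset.analyticAt_fun_sum _ fun i _ =>
      (analyticAt_const.mul (pt3_pow_analytic _ (hNb i) Set.univ s trivial)).mul (hZ0 i s hs')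
  have hPa : AnalyticOnNhd ℂ
      (fun s : ℂ => ∏ i, (1 - (q i : ℂ) * tm (tw ψ f φ 1) s (c i))) {s | 1 / 2 < s.re} := by
    intro s hs'
    exact Finset.analyticAt_fun_prod _ fun i _ =>
      (analyticAt_const.sub (analyticAt_const.mul
        (pt3_tm_analytic (tw ψ f φ 1) (c i) (pt3_ne hs i) Set.univ s trivial)))
  obtain ⟨Λ, hΛa, hΛ, hΛG⟩ := glue (1 / (2 * (m + 1 : ℝ))) (by positivity)
    (fun s : ℂ => ∑ i, κ' i * ζ i * (Ideal.absNorm (b i) : ℂ) ^ s * Z i s)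
    (fun s : ℂ => ∑ i, κ' i * ζ i * (Ideal.absNorm (b i) : ℂ) ^ s * Z0 i s)
    (fun s : ℂ => ∏ i, (1 - (q i : ℂ) * tm (tw ψ f φ 1) s (c i)))
    hGa hZ0a hPa
    (fun s hs' => Finset.prod_ne_zero_iff.2 fun i _ => tw_P_ne h _ (c i) (by
      rcases hφ.tI_pow 1 (c i) with h1 | h1
      · exact Or.inr (Complex.norm_eq_one_of_pow_eq_one h1 hN.ne')
      · exact Or.inl h1) (q i) (hs.prime i) (hs.norm i) s hs')
    (fun s hs' => by
      show _ = _ * _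
      rw [← e1 s hs', (e3 s hs').tsum_eq])
  refine ⟨Λ, hΛa, fun s hs' => ?_, ?_⟩
  · rw [hΛ s hs']
    exact e3 s hs'
  have h1re : (1 / 2 : ℝ) < (1 : ℂ).re := by norm_num
  have e5 := hΛG 1 h1re
  rw [← mul_div_assoc, ← e5, hm, Finset.sum_div]
  refine Finset.sum_congr rfl fun i _ => ?_
  rw [Complex.cpow_one, evC_apply, ← hζ i]
  ring

end H41P
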