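import Mathlib
import Pool.Agent.Lib.H41P.N2
import Pool.Agent.Lib.H41S.A6

/-! # H41P, N3: products of characters with coprime moduli, roots of unity -/

open NumberField IsDedekindDomain

namespace H41P

open H41S
open H55N H55P
open H55B (g)
open H55R (Pl es fs pv tI)

section ch

variable {K : Type} [Field K] [NumberField K] {p : ℕ}

theorem ch_mono {N N' : ℕ} {f f' : Ideal (𝓞 K)} {φ : Pl K → ℂˣ} (h : CH p N f φ) (hN : N ∣ N') (hf : f' ≤ f) (hf0 : f' ≠ ⊥)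
    (hfp : IsCoprime f' (Ideal.span {(p : 𝓞 K)})) : CH p N' f' φ := by
  refine ⟨hf0, hfp, ?_, fun x y hx hy hc hxy => h.per x y hx hy ?_ (hf hxy)⟩
  · obtain ⟨k, rfl⟩ := hN
    rw [pow_mul, h.val, one_pow]
  · rw [Ideal.isCoprime_iff_sup_eq] at hc ⊢
    rw [← top_le_iff, ← hc]
    exact sup_le_sup_left hf _

theorem ch_one (N : ℕ) {f : Ideal (𝓞 K)} (hf0 : f ≠ ⊥) (hfp : IsCoprime f (Ideal.span {(p : 𝓞 K)})) :
    CH p N f (1 : Pl K → ℂˣ) :=
  ⟨hf0, hfp, one_pow _, fun x y _ _ _ _ => by rw [H55R.pv_one_fun, H55R.pv_one_fun]⟩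

theorem ch_mul {N : ℕ} {f : Ideal (𝓞 K)} {φ φ' : Pl K → ℂˣ} (h : CH p N f φ) (h' : CH p N f φ') : CH p N f (φ * φ') :=
  ⟨h.ne, h.cop, by rw [mul_pow, h.val, h'.val, one_mul], fun x y hx hy hc hxy => by
    rw [H55R.pv_mul_fun, H55R.pv_mul_fun, h.per x y hx hy hc hxy, h'.per x y hx hy hc hxy]⟩

theorem ch_prod {ι : Type} {N : ℕ} {f : Ideal (𝓞 K)} (hf0 : f ≠ ⊥) (hfp : IsCoprime f (Ideal.span {(p : 𝓞 K)})) (S : Finset ι)
    (φ : ι → Pl K → ℂˣ) (h : ∀ i ∈ S, CH p N f (φ i)) : CH p N f (∏ i ∈ S, φ i) := by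
  classical
  induction S using Finset.induction with
  | empty =>
    rw [Finset.prod_empty]
    exact ch_one N hf0 hfp
  | insert a s ha ih =>
    rw [Finset.prod_insert ha]
    exact ch_mul (h a (Finset.mem_insert_self a s)) (ih fun i hi => h i (Finset.mem_insert_of_mem hi))

theorem ch_pow {N : ℕ} {f : Ideal (𝓞 K)} {φ : Pl K → ℂˣ} (h : CH p N f φ) (j : ℕ) : CH p N f (φ ^ j) :=
  ⟨h.ne, h.cop, by rw [← pow_mul, mul_comm, pow_mul, h.val, one_pow], fun x y hx hy hc hxy => by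
    rw [H55R.pv_pow, H55R.pv_pow, h.per x y hx hy hc hxy]⟩

end ch

section roots

variable (V : ValuationSubring ℂ) {p : ℕ}

/-- ε: the valuation of 1 - ζ, ζ a primitive root of order p^o. -/
noncomputable def eps (p o : ℕ) : V.ValueGroup := V.valuation (1 - Complex.exp (2 * Real.pi * Complex.I / ((p ^ o : ℕ) : ℂ)))

theorem eps_root (hp : p.Prime) (o : ℕ) :
    IsPrimitiveRoot (Complex.exp (2 * Real.pi * Complex.I / ((p ^ o : ℕ) : ℂ))) (p ^ o) :=
  Complex.isPrimitiveRoot_exp _ (pow_ne_zero o hp.ne_zero)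

theorem eps_le (hp : p.Prime) {o : ℕ} {z : ℂ} (hz : z ^ p ^ o = 1) : V.valuation (z - 1) ≤ eps V p o := by
  have : NeZero (p ^ o) := ⟨pow_ne_zero o hp.ne_zero⟩
  obtain ⟨a, -, ha⟩ := (eps_root hp o).eq_pow_of_pow_eq_one hz
  rw [← ha, Valuation.map_sub_swap]
  exact c1_le V (pow_pos hp.pos o) (eps_root hp o).pow_eq_one a

/-- The valuation of 1 - z for z a primitive root of order p^e. -/
theorem eps_eq (hp : p.Prime) {e : ℕ} {z w : ℂ} (hz : IsPrimitiveRoot z (p ^ e)) (hw : IsPrimitiveRoot w (p ^ e)) :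
    V.valuation (1 - z) = V.valuation (1 - w) := by
  have : NeZero (p ^ e) := ⟨pow_ne_zero e hp.ne_zero⟩
  obtain ⟨a, -, rfl⟩ := hw.eq_pow_of_pow_eq_one hz.pow_eq_one
  have hpos : 0 < p ^ e := pow_pos hp.pos e
  exact c1_eq V hpos hw ((hw.pow_iff_coprime hpos a).1 hz)

theorem eps_lt (hp : p.Prime) (hV : V.valuation (p : ℂ) < 1) {o e : ℕ} (hoe : o < e) {z : ℂ} (hz : IsPrimitiveRoot z (p ^ e)) :
    eps V p o < V.valuation (1 - z) := by
  obtain ⟨n, rfl⟩ : ∃ n, e = n + 1 := ⟨e - 1, by omega⟩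
  obtain ⟨h1, h0⟩ := c1_lt V hp hV hz
  have hp' : IsPrimitiveRoot (z ^ p ^ (n + 1 - o)) (p ^ o) := by
    refine hz.pow (pow_pos hp.pos _) ?_
    rw [← pow_add]
    congr 1
    omega
  have h2 : eps V p o = V.valuation (1 - z ^ p ^ (n + 1 - o)) := eps_eq V hp (eps_root hp o) hp'
  rw [h2]
  rcases Nat.eq_zero_or_pos o with h3 | h3
  · have h4 : z ^ p ^ (n + 1 - o) = 1 := by
      rw [h3, Nat.sub_zero]
      exact hz.pow_eq_one
    rw [h4, sub_self, map_zero]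
    exact h0
  · have h4 := c1_pow V hp (k := n + 1 - o) (m := 1) hz (by omega) hp.not_dvd_one
    rw [mul_one] at h4
    rw [h4]
    have h5 : 1 < p ^ (n + 1 - o) := Nat.one_lt_pow (by omega) hp.one_lt
    calc V.valuation (1 - z) ^ p ^ (n + 1 - o) < V.valuation (1 - z) ^ 1 := pow_lt_pow_right_of_lt_one₀ h0 h1 h5
      _ = V.valuation (1 - z) := pow_one _

theorem p_lt (hp : p.Prime) (hp2 : p ≠ 2) (hV : V.valuation (p : ℂ) < 1) {e : ℕ} (he : 0 < e) {z : ℂ} (hz : IsPrimitiveRoot z (p ^ e)) :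
    V.valuation (p : ℂ) < V.valuation (1 - z) := by
  obtain ⟨n, rfl⟩ : ∃ n, e = n + 1 := ⟨e - 1, by omega⟩
  obtain ⟨h1, h0⟩ := c1_lt V hp hV hz
  rw [← c1_root V hp hz]
  have h3 : 2 ≤ p := hp.two_le
  have h4 : 1 < p ^ n * (p - 1) := by
    have h5 : 1 ≤ p ^ n := Nat.one_le_pow _ _ hp.pos
    have h6 : 2 ≤ p - 1 := by omega
    nlinarith
  calc V.valuation (1 - z) ^ (p ^ n * (p - 1)) < V.valuation (1 - z) ^ 1 := pow_lt_pow_right_of_lt_one₀ h0 h1 h4
    _ = V.valuation (1 - z) := pow_one _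

/-- A primitive root of order p^e times a root of order p^o, o < e, is a primitive root of order p^e. -/
theorem root_mul (hp : p.Prime) {o e : ℕ} (hoe : o < e) {z w : ℂ} (hz : IsPrimitiveRoot z (p ^ e)) (hw : w ^ p ^ o = 1) :
    IsPrimitiveRoot (z * w) (p ^ e) := by
  have : Fact p.Prime := ⟨hp⟩
  obtain ⟨n, rfl⟩ : ∃ n, e = n + 1 := ⟨e - 1, by omega⟩
  have hwn : w ^ p ^ n = 1 := by
    obtain ⟨k, hk⟩ : p ^ o ∣ p ^ n := pow_dvd_pow p (by omega)
    rw [hk, pow_mul, hw, one_pow]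
  rw [IsPrimitiveRoot.iff_orderOf]
  refine orderOf_eq_prime_pow ?_ ?_
  · rw [mul_pow, hwn, mul_one]
    exact hz.pow_ne_one_of_pos_of_lt (pow_ne_zero n hp.ne_zero) (Nat.pow_lt_pow_right hp.one_lt (Nat.lt_succ_self n))
  · rw [mul_pow, hz.pow_eq_one, pow_succ, pow_mul, hwn, one_pow, one_mul]

/-- The factor 1 - β z. -/
theorem fac_val (hp : p.Prime) (hp2 : p ≠ 2) (hV : V.valuation (p : ℂ) < 1) {e : ℕ} (he : 0 < e) {β z : ℂ}
    (hβ : V.valuation (1 - β) ≤ V.valuation (p : ℂ)) (hz : IsPrimitiveRoot z (p ^ e)) :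
    V.valuation (1 - β * z) = V.valuation (1 - z) := by
  have hlt := p_lt V hp hp2 hV he hz
  have hβ1 : V.valuation β = 1 := by
    have e1 : β = 1 - (1 - β) := by ring
    have h1 : V.valuation (1 - β) < V.valuation (1 : ℂ) := by
      rw [map_one]
      exact lt_of_le_of_lt hβ hV
    rw [e1, Valuation.map_sub_eq_of_lt_left _ h1, map_one]
  have e2 : 1 - β * z = (1 - β) + β * (1 - z) := by ring
  have h2 : V.valuation (β * (1 - z)) = V.valuation (1 - z) := by rw [map_mul, hβ1, one_mul]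
  rw [e2, Valuation.map_add_eq_of_lt_right _ (by rw [h2]; exact lt_of_le_of_lt hβ hlt), h2]

end roots

end H41P
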