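import Mathlib
import Pool.Agent.Lib.H41P.N3

/-! # H41P, N4: the valuation of the L-value of a product of characters ramified at different anomalous primes -/

open NumberField IsDedekindDomain

namespace H41P

open H41S
open H55N H55P
open H55B (g)
open H55R (Pl es fs pv tI)

variable {F : Type} [Field F] [NumberField F] [IQ F] {K : Type} [Field K] [NumberField K]
  [Algebra F K]

theorem alt_sum' {κ I : Type*} [DecidableEq κ] (V : ValuationSubring ℂ) (J : Finset I) (T : Finset κ) (c : I → ℂ) (z : I → κ → ℂ)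
    (ε : κ → V.ValueGroup) (hc : ∀ i ∈ J, V.valuation (c i) ≤ 1) (hz : ∀ i ∈ J, ∀ k ∈ T, V.valuation (z i k - 1) ≤ ε k) :
    V.valuation (∑ S ∈ T.powerset, (-1) ^ (T \ S).card * ∑ i ∈ J, c i * ∏ k ∈ S, z i k) ≤ ∏ k ∈ T, ε k := by
  have h := alt_sum V T (fun i : J => c i.1) (fun i k => z i.1 k) ε (fun i => hc i.1 i.2) fun i k hk => hz i.1 i.2 k hk
  have e1 : ∀ S : Finset κ, ∑ i : J, c i.1 * ∏ k ∈ S, z i.1 k = ∑ i ∈ J, c i * ∏ k ∈ S, z i k := fun S =>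
    Finset.sum_coe_sort J fun i => c i * ∏ k ∈ S, z i k
  simp only [e1] at h
  exact h

/-- The alternating sum of the products of the factors. -/
theorem alt_fac {κ : Type*} [DecidableEq κ] (V : ValuationSubring ℂ) (T : Finset κ) (b : κ → ℂ) (y : κ → κ → ℂ)
    (ε : κ → V.ValueGroup) (hb : ∀ k ∈ T, V.valuation (b k) ≤ 1)
    (hz : ∀ U ⊆ T, ∀ l ∈ T, V.valuation ((∏ k ∈ U, y k l) - 1) ≤ ε l) :
    V.valuation (∑ S ∈ T.powerset, (-1) ^ (T \ S).card * ∏ k ∈ T, (1 - b k * ∏ l ∈ S, y k l)) ≤ ∏ k ∈ T, ε k := by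
  have e1 : ∀ S : Finset κ, ∏ k ∈ T, (1 - b k * ∏ l ∈ S, y k l) =
      ∑ U ∈ T.powerset, (∏ k ∈ U, -b k) * ∏ l ∈ S, ∏ k ∈ U, y k l := by
    intro S
    have e2 := Finset.prod_add (fun k => -(b k * ∏ l ∈ S, y k l)) (fun _ => (1 : ℂ)) T
    have e3 : ∏ k ∈ T, (1 - b k * ∏ l ∈ S, y k l) = ∏ k ∈ T, (-(b k * ∏ l ∈ S, y k l) + 1) :=
      Finset.prod_congr rfl fun k _ => by ring
    rw [e3, e2]
    refine Finset.sum_congr rfl fun U _ => ?_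
    rw [Finset.prod_const_one, mul_one, Finset.prod_comm, ← Finset.prod_mul_distrib]
    exact Finset.prod_congr rfl fun k _ => by ring
  simp only [e1]
  refine alt_sum' V T.powerset T (fun U => ∏ k ∈ U, -b k) (fun U l => ∏ k ∈ U, y k l) ε (fun U hU => ?_) (fun U hU l hl =>
    hz U (Finset.mem_powerset.1 hU) l hl)
  rw [map_prod]
  refine Finset.prod_le_one' fun k hk => ?_
  rw [Valuation.map_neg]
  exact hb k (Finset.mem_powerset.1 hU hk)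

/-- THE L-VALUE OF THE CHARACTER χ₀ ∏ χ v, χ v ramified only at the anomalous prime v, when the orders of the values of χ₀ at these primes
are larger than the orders of the χ v. -/
theorem tw_valP (p : ℕ) (hp : p.Prime) (hp2 : p ≠ 2) {M : Ideal (𝓞 F)} {ψ : Ideal (𝓞 F) →*₀ 𝓞 F}
    (h : IsHecke M ψ) (hMp : IsCoprime M (Ideal.span {(p : 𝓞 F)})) (hF : UnrP p F) (hK : UnrP p K)
    (Ac Bc Om : ℂ) (hper : Per F Ac Bc Om) (V : ValuationSubring ℂ)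
    (hV : V.valuation (p : ℂ) < 1) (hg : GoodV Ac Bc V) (hNT : NTP K p M ψ V)
    (f₀ : Ideal (𝓞 K)) (T₀ : Finset (Pl K)) (hfv₀ : ∀ v ∈ T₀, ¬ f₀ ≤ v.asIdeal)
    (N₀ : ℕ) (χ₀ : Pl K → ℂˣ) (hχ₀ : CH p (p ^ N₀) f₀ χ₀) (χ : Pl K → Pl K → ℂˣ) (o : Pl K → ℕ)
    (hχ : ∀ v ∈ T₀, CH p (p ^ o v) (f₀ * v.asIdeal) (χ v))
    (hLM : LVP F V Om (PsiP K ψ))
    (hna : ∀ w : Pl K, f₀ ≤ w.asIdeal → V.valuation (1 - (starRingEnd ℂ) (PsiP K ψ w.asIdeal)) = 1)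
    (han : ∀ v ∈ T₀, V.valuation (1 - (starRingEnd ℂ) (PsiP K ψ v.asIdeal)) ≠ 1)
    (e : Pl K → ℕ) (he : ∀ v ∈ T₀, IsPrimitiveRoot (χ₀ v : ℂ) (p ^ e v)) (hoe : ∀ v ∈ T₀, ∀ w ∈ T₀, o w < e v) :
    ∃ Λ : ℂ → ℂ, AnalyticOnNhd ℂ Λ {s | 1 / 2 < s.re} ∧
      (∀ s : ℂ, 3 / 2 < s.re → HasSum (tm (tw ψ (f₀ * ∏ v ∈ T₀, v.asIdeal) (χ₀ * ∏ v ∈ T₀, χ v) 1) s) (Λ s)) ∧
      V.valuation (Λ 1 / Om ^ Module.finrank F K) = ∏ v ∈ T₀, V.valuation (1 - (χ₀ v : ℂ)) := by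
  classical
  have hfv : ∀ v w : Pl K, v.asIdeal ≤ w.asIdeal ↔ w = v := fun v w =>
    ⟨fun h1 => (HeightOneSpectrum.ext (v.isMaximal.eq_of_le w.isPrime.ne_top h1)).symm, fun h1 => by rw [h1]⟩
  obtain ⟨m, hm⟩ : ∃ m, Module.finrank F K = m + 1 :=
    ⟨Module.finrank F K - 1, (Nat.sub_add_cancel Module.finrank_pos).symm⟩
  -- the moduli and the characters
  obtain ⟨fT, hfT⟩ : ∃ fT : Finset (Pl K) → Ideal (𝓞 K), ∀ T, fT T = f₀ * ∏ v ∈ T, v.asIdeal := ⟨_, fun _ => rfl⟩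
  obtain ⟨xS, hxS⟩ : ∃ xS : Finset (Pl K) → Pl K → ℂˣ, ∀ S, xS S = χ₀ * ∏ v ∈ S, χ v := ⟨_, fun _ => rfl⟩
  have hfT0 : ∀ T ⊆ T₀, fT T ≠ ⊥ := fun T hT => by
    rw [hfT]
    exact mul_ne_zero hχ₀.ne (Finset.prod_ne_zero_iff.2 fun v hv => v.ne_bot)
  have hfTp : ∀ T ⊆ T₀, IsCoprime (fT T) (Ideal.span {(p : 𝓞 K)}) := fun T hT => by
    rw [hfT]
    exact hχ₀.cop.mul_left (IsCoprime.prod_left fun v hv => (hχ v (hT hv)).cop.of_mul_left_right)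
  have hfTw : ∀ T ⊆ T₀, ∀ w : Pl K, fT T ≤ w.asIdeal ↔ f₀ ≤ w.asIdeal ∨ w ∈ T := by
    intro T hT w
    rw [hfT, w.isPrime.mul_le, w.isPrime.prod_le]
    constructor
    · rintro (h1 | ⟨v, hv, h1⟩)
      · exact Or.inl h1
      · rw [(hfv v w).1 h1]
        exact Or.inr hv
    · rintro (h1 | h1)
      · exact Or.inl h1
      · exact Or.inr ⟨w, h1, le_rfl⟩
  have hfTmono : ∀ S T : Finset (Pl K), S ⊆ T → fT T ≤ fT S := by
    intro S T hST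
    rw [hfT, hfT, ← Finset.prod_sdiff hST]
    calc f₀ * ((∏ v ∈ T \ S, v.asIdeal) * ∏ v ∈ S, v.asIdeal) = (f₀ * ∏ v ∈ S, v.asIdeal) * ∏ v ∈ T \ S, v.asIdeal := by ring
      _ ≤ f₀ * ∏ v ∈ S, v.asIdeal := Ideal.mul_le_left
  obtain ⟨N, hN⟩ : ∃ N : ℕ, N = N₀ + ∑ v ∈ T₀, o v := ⟨_, rfl⟩
  have hNp : 0 < p ^ N := pow_pos hp.pos N
  have hoN : ∀ v ∈ T₀, o v ≤ N := fun v hv => by
    rw [hN]
    exact (Finset.single_le_sum (f := o) (fun _ _ => Nat.zero_le _) hv).trans (Nat.le_add_left _ _)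
  have hCH : ∀ S T : Finset (Pl K), S ⊆ T → T ⊆ T₀ → CH p (p ^ N) (fT T) (xS S) := by
    intro S T hST hT
    rw [hxS]
    refine ch_mul ?_ (ch_prod (hfT0 T hT) (hfTp T hT) S χ fun v hv => ?_)
    · refine ch_mono hχ₀ (pow_dvd_pow p (by omega)) ?_ (hfT0 T hT) (hfTp T hT)
      rw [hfT]
      exact Ideal.mul_le_left
    · refine ch_mono (hχ v (hT (hST hv))) (pow_dvd_pow p (hoN v (hT (hST hv)))) ?_ (hfT0 T hT) (hfTp T hT)
      rw [hfT, ← Finset.mul_prod_erase T (fun v => v.asIdeal) (hST hv), ← mul_assoc]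
      exact Ideal.mul_le_left
  -- the group rings
  have hbad : ∀ T : Finset (Pl K), ∃ Bad : Set (Ideal (𝓞 K)), Bad.Finite ∧ (T ⊆ T₀ →
      ∀ (c : Fin (m + 1) × Fin 2 → Ideal (𝓞 K)) (q : Fin (m + 1) × Fin 2 → ℕ), Smooth c q →
        (∀ i, (c i).IsPrime ∧ c i ∉ Bad) → ∃ (I : Type) (_ : Fintype I) (cf : I → ℂ) (ev : I → (Pl K → ℂˣ) →* ℂˣ),
          (∀ i, V.valuation (cf i) ≤ 1) ∧ ∀ (N : ℕ) (φ : Pl K → ℂˣ), 0 < N → CH p N (fT T) φ → ∃ Λ : ℂ → ℂ,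
          AnalyticOnNhd ℂ Λ {s | 1 / 2 < s.re} ∧
          (∀ s : ℂ, 3 / 2 < s.re → HasSum (tm (tw ψ (fT T) φ 1) s) (Λ s)) ∧
          (∏ i, (1 - (q i : ℂ) * tm (tw ψ (fT T) φ 1) 1 (c i))) * (Λ 1 / Om ^ Module.finrank F K) =
            ∑ i, cf i * (ev i φ : ℂ)) := by
    intro T
    by_cases hT : T ⊆ T₀
    · obtain ⟨Bad, h1, h2⟩ := smvM p hp h hMp hK Ac Bc Om hper V hV hg (fT T) (hfT0 T hT) (hfTp T hT) hm
      exact ⟨Bad, h1, fun _ => h2⟩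
    · exact ⟨∅, Set.finite_empty, fun h1 => absurd h1 hT⟩
  choose Bad hBfin hB using hbad
  obtain ⟨c, q, hs, hcb, hun⟩ := exists_smoothP p hp h hMp V hV hNT m
    ((⋃ T ∈ T₀.powerset, Bad T) ∪ {w : Ideal (𝓞 K) | fT T₀ ≤ w})
    ((Set.Finite.biUnion (Finset.finite_toSet _) fun T _ => hBfin T).union (pt9_finite (fT T₀) (hfT0 T₀ (Finset.Subset.refl _))))
  have hcp : ∀ i, (c i).IsPrime := fun i => (hcb i).1
  have hcB : ∀ T ⊆ T₀, ∀ i, (c i).IsPrime ∧ c i ∉ Bad T := fun T hT i => ⟨hcp i, fun h1 => (hcb i).2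
    (Or.inl (Set.mem_biUnion (Finset.mem_coe.2 (Finset.mem_powerset.2 hT)) h1))⟩
  have hcf : ∀ T ⊆ T₀, ∀ i, IsCoprime (c i) (fT T) := by
    intro T hT i
    rw [cop_iff _ _ (pt3_ne hs i)]
    intro v hv hfv
    have h1 : c i = v.asIdeal := ((hcp i).isMaximal (pt3_ne hs i)).eq_of_le v.isPrime.ne_top hv
    apply (hcb i).2
    right
    show fT T₀ ≤ c i
    rw [h1]
    exact (hfTmono T T₀ hT).trans hfv
  -- the smoothing factors
  obtain ⟨sm, hsm⟩ : ∃ sm : Finset (Pl K) → ℂ, ∀ S, sm S = ∏ i, (1 - (q i : ℂ) * tm (tw ψ (fT S) (xS S) 1) 1 (c i)) := ⟨_, fun _ => rfl⟩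
  have hsm1 : ∀ S T : Finset (Pl K), S ⊆ T → T ⊆ T₀ →
      ∏ i, (1 - (q i : ℂ) * tm (tw ψ (fT T) (xS S) 1) 1 (c i)) = sm S := by
    intro S T hST hT
    rw [hsm]
    refine Finset.prod_congr rfl fun i _ => ?_
    have e4 : tm (tw ψ (fT T) (xS S) 1) 1 (c i) = tm (tw ψ (fT S) (xS S) 1) 1 (c i) := by
      show tw ψ (fT T) (xS S) 1 (c i) * _ = tw ψ (fT S) (xS S) 1 (c i) * _
      rw [tw_apply ψ _ _ _ (pt3_ne hs i) (hcf T hT i), tw_apply ψ _ _ _ (pt3_ne hs i) (hcf S (hST.trans hT) i)]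
    rw [e4]
  have hu1 : ∀ (f : Ideal (𝓞 K)) (φ : Pl K → ℂˣ) (a : ℕ) (_ : CH p (p ^ a) f φ),
      V.valuation (∏ i, (1 - (q i : ℂ) * tm (tw ψ f φ 1) 1 (c i))) = 1 := by
    intro f φ a hφ
    rw [map_prod]
    refine Finset.prod_eq_one fun i _ => factorQ p hp V hV ψ (tI f (φ ^ 1)) (c i) (q i) (hs.prime i) (hs.norm i)
      (hun i) a (hφ.tI_pow 1 (c i))
  have hsmu : ∀ S ⊆ T₀, V.valuation (sm S) = 1 := fun S hS => by
    rw [hsm]
    exact hu1 _ _ N (hCH S S (Finset.Subset.refl _) hS)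
  -- the values
  have hval : ∀ S : Finset (Pl K), ∃ Λ : ℂ → ℂ, S ⊆ T₀ → AnalyticOnNhd ℂ Λ {s | 1 / 2 < s.re} ∧
      ∀ s : ℂ, 3 / 2 < s.re → HasSum (tm (tw ψ (fT S) (xS S) 1) s) (Λ s) := by
    intro S
    by_cases hS : S ⊆ T₀
    · obtain ⟨I, _, cf, ev, -, h2⟩ := hB S hS c q hs (hcB S hS)
      obtain ⟨Λ, h3, h4, -⟩ := h2 (p ^ N) (xS S) hNp (hCH S S (Finset.Subset.refl _) hS)
      exact ⟨Λ, fun _ => ⟨h3, h4⟩⟩
    · exact ⟨fun _ => 0, fun h1 => absurd h1 hS⟩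
  choose Λ hΛ using hval
  obtain ⟨B, hBd⟩ : ∃ B : Finset (Pl K) → ℂ, ∀ S, B S = sm S * (Λ S 1 / Om ^ Module.finrank F K) := ⟨_, fun _ => rfl⟩
  obtain ⟨y, hy⟩ : ∃ y : Pl K → Pl K → ℂ, ∀ k l, y k l = if l = k then 1 else (χ l k : ℂ) := ⟨_, fun _ _ => rfl⟩
  obtain ⟨b, hb⟩ : ∃ b : Pl K → ℂ, ∀ k, b k = tm (PsiP K ψ) 1 k.asIdeal * (χ₀ k : ℂ) := ⟨_, fun _ => rfl⟩
  obtain ⟨E, hE⟩ : ∃ E : Pl K → Finset (Pl K) → ℂ, ∀ k S, E k S = 1 - b k * ∏ l ∈ S, y k l := ⟨_, fun _ _ => rfl⟩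
  have hyl : ∀ k l : Pl K, l ∈ T₀ → y k l ^ p ^ o l = 1 := by
    intro k l hl
    rw [hy]
    split_ifs with h1
    · rw [one_pow]
    · rw [← Units.val_pow_eq_pow_val, Units.val_eq_one]
      exact congrFun (hχ l hl).val k
  -- the comparison of the moduli
  have hcomp : ∀ S T : Finset (Pl K), S ⊆ T → T ⊆ T₀ → ∀ (ΛT : ℂ → ℂ), AnalyticOnNhd ℂ ΛT {s | 1 / 2 < s.re} →
      (∀ s : ℂ, 3 / 2 < s.re → HasSum (tm (tw ψ (fT T) (xS S) 1) s) (ΛT s)) → ΛT 1 = (∏ k ∈ T \ S, E k S) * Λ S 1 := by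
    intro S T hST hT ΛT ha hsum
    have hS := hST.trans hT
    obtain ⟨haS, hsS⟩ := hΛ S hS
    have hfin : {w : HeightOneSpectrum (𝓞 K) | w.asIdeal ∣ fT T}.Finite := Ideal.finite_factors (hfT0 T hT)
    obtain ⟨R, hR⟩ : ∃ R : Finset (Pl K), ∀ w, w ∈ R ↔ fT T ≤ w.asIdeal := ⟨hfin.toFinset, fun w => by
      rw [Set.Finite.mem_toFinset]
      exact Ideal.dvd_iff_le⟩
    have e1 := tw_cmpL h (p := 1) (N' := p ^ N) hNp.ne' (fT T) (fT S) (hfT0 T hT) (xS S) (xS S)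
      (⟨(hCH S S (Finset.Subset.refl _) hS).ne, by rw [Nat.cast_one, Ideal.span_singleton_one, ← Ideal.one_eq_top]; exact isCoprime_one_right,
        (hCH S S (Finset.Subset.refl _) hS).val, (hCH S S (Finset.Subset.refl _) hS).per⟩ : CH 1 (p ^ N) (fT S) (xS S))
      (fun v hv => (hfTmono S T hST).trans hv) (fun v _ => by rw [pow_one]) 1 ΛT (Λ S) ha haS (by rw [mul_one]; exact hsum) hsS R hR
    rw [e1]
    congr 1
    have hsub : T \ S ⊆ R := fun w hw => (hR w).2 ((hfTw T hT w).2 (Or.inr (Finset.mem_sdiff.1 hw).1))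
    rw [← Finset.prod_subset hsub]
    · refine Finset.prod_congr rfl fun w hw => ?_
      rw [Finset.mem_sdiff] at hw
      have hwS : ¬ fT S ≤ w.asIdeal := by
        rw [hfTw S hS]
        rintro (h1 | h1)
        · exact hfv₀ w (hT hw.1) h1
        · exact hw.2 h1
      have e6 : tw ψ (fT S) (xS S) 1 w.asIdeal = PsiP K ψ w.asIdeal * (xS S w : ℂ) ^ 1 := by
        rw [tw_apply ψ _ _ 1 w.ne_bot (H55R.cop_prime w _ hwS), H55R.pv_prime]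
      have e7 : (xS S w : ℂ) = (χ₀ w : ℂ) * ∏ l ∈ S, y w l := by
        rw [hxS, Pi.mul_apply, Units.val_mul, Finset.prod_apply, Units.coe_prod]
        congr 1
        refine Finset.prod_congr rfl fun l hl => ?_
        rw [hy, if_neg]
        rintro rfl
        exact hw.2 hl
      rw [hE, hb]
      unfold tm
      rw [e6, pow_one, e7]
      ring
    · intro w hw hwn
      rw [hR, hfTw T hT] at hw
      have hwS : fT S ≤ w.asIdeal := by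
        rw [hfTw S hS]
        rcases hw with h1 | h1
        · exact Or.inl h1
        · right
          by_contra h2
          exact hwn (Finset.mem_sdiff.2 ⟨h1, h2⟩)
      have e6 : tw ψ (fT S) (xS S) 1 w.asIdeal = 0 := by
        refine tw_zero ψ _ _ 1 fun hcop => ?_
        exact (cop_iff _ _ w.ne_bot).1 hcop w le_rfl hwS
      unfold tm
      rw [e6, zero_mul, sub_zero]
  have hwp : ∀ w : Pl K, fT T₀ ≤ w.asIdeal → IsCoprime w.asIdeal (Ideal.span {(p : 𝓞 K)}) := by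
    intro w hw
    have h1 := hfTp T₀ (Finset.Subset.refl _)
    rw [Ideal.isCoprime_iff_sup_eq] at h1 ⊢
    rw [← top_le_iff, ← h1]
    exact sup_le_sup_right hw _
  have hwT : ∀ k ∈ T₀, fT T₀ ≤ k.asIdeal := fun k hk => (hfTw T₀ (Finset.Subset.refl _) k).2 (Or.inr hk)
  have hχ1 : ∀ k : Pl K, V.valuation (χ₀ k : ℂ) = 1 := fun k => by
    have h1 : (χ₀ k : ℂ) ^ p ^ N₀ = 1 := by
      rw [← Units.val_pow_eq_pow_val, Units.val_eq_one]
      exact congrFun hχ₀.val k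
    apply pt6_le (pow_ne_zero N₀ hp.ne_zero)
    rw [← map_pow, h1, map_one]
  have hbV : ∀ k ∈ T₀, V.valuation (b k) ≤ 1 := fun k hk => by
    rw [hb, map_mul, hχ1, mul_one]
    exact a5_le hp h V hV k (hwp k (hwT k hk))
  -- the unit
  have hB0 : V.valuation (B ∅) = 1 := by
    have h0 : (∅ : Finset (Pl K)) ⊆ T₀ := Finset.empty_subset _
    obtain ⟨I, _, cf, ev, hcf1, h2⟩ := hB ∅ h0 c q hs (hcB ∅ h0)
    obtain ⟨Λ1, h3, h4, h5⟩ := h2 (p ^ N) (xS ∅) hNp (hCH ∅ ∅ (Finset.Subset.refl _) h0)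
    obtain ⟨Λ2, h6, h7, h8⟩ := h2 (p ^ N) 1 hNp (ch_one _ (hfT0 ∅ h0) (hfTp ∅ h0))
    have e1 : Λ1 1 = Λ ∅ 1 := by
      have h9 := hcomp ∅ ∅ (Finset.Subset.refl _) h0 Λ1 h3 h4
      rw [Finset.sdiff_self, Finset.prod_empty, one_mul] at h9
      exact h9
    have e2 : B ∅ = ∑ i, cf i * (ev i (xS ∅) : ℂ) := by
      rw [hBd, hsm, ← e1, h5]
    have e3 : V.valuation (∑ i, cf i * (ev i 1 : ℂ)) = 1 := by
      rw [← h8, map_mul, hu1 _ _ N (ch_one _ (hfT0 ∅ h0) (hfTp ∅ h0)), one_mul]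
      obtain ⟨ΛK, hKa, hKs, hKu⟩ := hLM
      have e4 : tw ψ (fT ∅) 1 1 = tw ψ (fT ∅) (1 : Pl K → ℂˣ) 0 := by
        show PsiP K ψ * tI (fT ∅) (1 ^ 1) = PsiP K ψ * tI (fT ∅) (1 ^ 0)
        rw [one_pow, pow_zero]
      rw [e4] at h7
      obtain ⟨S', hS', hv⟩ := tw_trivL h (fT ∅) (hfT0 ∅ h0) 1 Λ2 ΛK h6 hKa h7 hKs
      rw [hv, mul_div_assoc, map_mul, hKu, mul_one, map_prod]
      refine Finset.prod_eq_one fun w hw => ?_
      have h9 := (hS' w).1 hw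
      refine EfacP p hp V hV h w (hwp w ((hfTmono ∅ T₀ h0).trans h9)) (hna w ?_)
      rcases (hfTw ∅ h0 w).1 h9 with h10 | h10
      · exact h10
      · exact absurd h10 (Finset.notMem_empty w)
    have e5 : V.valuation (B ∅ - ∑ i, cf i * (ev i 1 : ℂ)) < 1 := by
      rw [e2, ← Finset.sum_sub_distrib]
      refine Valuation.map_sum_lt _ one_ne_zero fun i _ => ?_
      rw [map_one, Units.val_one, mul_one, ← mul_sub_one, map_mul]
      have h9 : (ev i (xS ∅) : ℂ) ^ p ^ N = 1 := by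
        rw [← Units.val_pow_eq_pow_val, ← map_pow, (hCH ∅ ∅ (Finset.Subset.refl _) h0).val, map_one, Units.val_one]
      exact lt_of_le_of_lt (mul_le_of_le_one_left' (hcf1 i)) (root_maxQ p hp V hV _ N h9)
    have e6 : B ∅ = (B ∅ - ∑ i, cf i * (ev i 1 : ℂ)) + ∑ i, cf i * (ev i 1 : ℂ) := by ring
    rw [e6, Valuation.map_add_eq_of_lt_right _ (by rw [e3]; exact e5), e3]
  -- the factors
  have hroot : ∀ k ∈ T₀, ∀ S ⊆ T₀, IsPrimitiveRoot ((χ₀ k : ℂ) * ∏ l ∈ S, y k l) (p ^ e k) := by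
    intro k hk S hS
    have hpos : 0 < e k := lt_of_le_of_lt (Nat.zero_le _) (hoe k hk k hk)
    refine root_mul hp (o := e k - 1) (by omega) (he k hk) ?_
    rw [← Finset.prod_pow]
    refine Finset.prod_eq_one fun l hl => ?_
    obtain ⟨r, hr⟩ : p ^ o l ∣ p ^ (e k - 1) := pow_dvd_pow p (by have := hoe k hk l (hS hl); omega)
    rw [hr, pow_mul, hyl k l (hS hl), one_pow]
  have hEv : ∀ k ∈ T₀, ∀ S ⊆ T₀, V.valuation (E k S) = V.valuation (1 - (χ₀ k : ℂ)) := by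
    intro k hk S hS
    have hpos : 0 < e k := lt_of_le_of_lt (Nat.zero_le _) (hoe k hk k hk)
    rw [hE, hb, mul_assoc, fac_val V hp hp2 hV hpos (a5_an hp hF h V hV k (hwp k (hwT k hk)) (han k hk)) (hroot k hk S hS)]
    exact eps_eq V hp (hroot k hk S hS) (he k hk)
  have key := num_val V B E (fun k => V.valuation (1 - (χ₀ k : ℂ))) (fun k => eps V p (o k)) T₀ hB0 hEv
    (fun k hk => eps_lt V hp hV (hoe k hk k hk) (he k hk)) (fun T hT => ?_) (fun T hT => ?_)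
  · refine ⟨Λ T₀, (hΛ T₀ (Finset.Subset.refl _)).1, ?_, ?_⟩
    · have h1 := (hΛ T₀ (Finset.Subset.refl _)).2
      rw [hfT, hxS] at h1
      exact h1
    · rw [← key, hBd, map_mul, hsmu T₀ (Finset.Subset.refl _), one_mul]
  · obtain ⟨I, _, cf, ev, hcf1, h2⟩ := hB T hT c q hs (hcB T hT)
    have e1 : ∀ S ∈ T.powerset, (∏ k ∈ T \ S, E k S) * B S = ∑ i, (cf i * (ev i χ₀ : ℂ)) * ∏ k ∈ S, (ev i (χ k) : ℂ) := by
      intro S hS
      have hST := Finset.mem_powerset.1 hS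
      obtain ⟨Λ1, h3, h4, h5⟩ := h2 (p ^ N) (xS S) hNp (hCH S T hST hT)
      rw [hsm1 S T hST hT, hcomp S T hST hT Λ1 h3 h4] at h5
      have e2 : (∏ k ∈ T \ S, E k S) * B S = sm S * ((∏ k ∈ T \ S, E k S) * Λ S 1 / Om ^ Module.finrank F K) := by
        rw [hBd]
        ring
      rw [e2, h5]
      refine Finset.sum_congr rfl fun i _ => ?_
      rw [hxS, map_mul, map_prod, Units.val_mul, Units.coe_prod, mul_assoc]
    rw [Finset.sum_congr rfl fun S hS => by rw [e1 S hS]]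
    refine alt_sum V T _ _ _ (fun i => ?_) (fun i k hk => eps_le V hp ?_)
    · rw [map_mul]
      refine mul_le_one' (hcf1 i) ?_
      have h9 : (ev i χ₀ : ℂ) ^ p ^ N₀ = 1 := by
        rw [← Units.val_pow_eq_pow_val, ← map_pow, hχ₀.val, map_one, Units.val_one]
      refine le_of_eq (pt6_le (pow_ne_zero N₀ hp.ne_zero) ?_)
      rw [← map_pow, h9, map_one]
    · rw [← Units.val_pow_eq_pow_val, ← map_pow, (hχ k (hT hk)).val, map_one, Units.val_one]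
  · simp only [hE]
    refine alt_fac V T b y _ (fun k hk => hbV k (hT hk)) fun U hU l hl => eps_le V hp ?_
    rw [← Finset.prod_pow]
    exact Finset.prod_eq_one fun k _ => hyl k l (hT hl)

end H41P
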