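import Mathlib
import Pool.Agent.Lib.H41P.N4
import Pool.Agent.Lib.H41P.D

/-! # H41P, N5: the valuations of the L-values of the faithful powers of a character, any number of anomalous ramified primes -/

open NumberField IsDedekindDomain

namespace H41P

open H41S
open H55N H55P
open H55B (g)
open H55R (Pl es fs pv tI)

section uniq

variable {K : Type} [Field K] [NumberField K]

/-- Characters which agree outside a finite set agree at the primes not dividing their moduli. -/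
theorem ext_unique {p p' N N' : ℕ} {f f' : Ideal (𝓞 K)} {φ φ' : Pl K → ℂˣ} (h : CH p N f φ) (h' : CH p' N' f' φ') (w : Pl K)
    (hw : ¬ f ≤ w.asIdeal) (hw' : ¬ f' ≤ w.asIdeal) (S : Finset (Pl K)) (hS : ∀ v : Pl K, v ∉ S → v ≠ w → φ v = φ' v) :
    φ w = φ' w := by
  classical
  -- the auxiliary modulus
  obtain ⟨c, hc⟩ : ∃ c, c = f * f' * ∏ v ∈ S.erase w, v.asIdeal := ⟨_, rfl⟩
  have hcw : ¬ c ≤ w.asIdeal := by
    rw [hc, w.isPrime.mul_le, w.isPrime.mul_le, w.isPrime.prod_le]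
    rintro ((h1 | h1) | ⟨v, hv, h1⟩)
    · exact hw h1
    · exact hw' h1
    · have h2 : v = w := HeightOneSpectrum.ext (v.isMaximal.eq_of_le w.isPrime.ne_top h1)
      exact (Finset.mem_erase.1 hv).1 h2
  have hcop : IsCoprime (w.asIdeal ^ 2) c := (H55R.cop_prime w c hcw).pow_left
  obtain ⟨a, ha, b, hb, hab⟩ := Ideal.isCoprime_iff_exists.1 hcop
  obtain ⟨π, hπ, hπ2⟩ : ∃ π ∈ w.asIdeal, π ∉ w.asIdeal ^ 2 := by
    have h1 : w.asIdeal ^ 2 < w.asIdeal := by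
      have h2 : w.asIdeal ^ 2 < w.asIdeal ^ 1 := Ideal.pow_right_strictAnti w.asIdeal w.ne_bot w.isPrime.ne_top (show 1 < 2 by norm_num)
      rwa [pow_one] at h2
    obtain ⟨π, h2, h3⟩ := SetLike.exists_of_lt h1
    exact ⟨π, h2, h3⟩
  obtain ⟨x, hx⟩ : ∃ x, x = π * b + a := ⟨_, rfl⟩
  have haw : a ∈ w.asIdeal := Ideal.pow_le_self two_ne_zero ha
  have hxw : x ∈ w.asIdeal := by
    rw [hx]
    exact Ideal.add_mem _ (Ideal.mul_mem_right _ _ hπ) haw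
  have hxw2 : x ∉ w.asIdeal ^ 2 := by
    intro h1
    apply hπ2
    have h2 : π = x + (π * a - a) := by
      rw [hx]
      have h3 : b = 1 - a := by rw [← hab]; ring
      rw [h3]
      ring
    rw [h2]
    exact Ideal.add_mem _ h1 (Ideal.sub_mem _ (Ideal.mul_mem_left _ _ ha) ha)
  have hx1 : x - 1 ∈ c := by
    have h2 : x - 1 = (π - 1) * b := by
      rw [hx]
      linear_combination hab
    rw [h2]
    exact Ideal.mul_mem_left _ _ hb
  have hcf : c ≤ f := by rw [hc, mul_assoc]; exact Ideal.mul_le_left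
  have hcf' : c ≤ f' := by rw [hc, mul_comm f, mul_assoc]; exact Ideal.mul_le_left
  have hx0 : x ≠ 0 := by
    rintro rfl
    exact hxw2 (zero_mem _)
  have hxcop : ∀ g : Ideal (𝓞 K), c ≤ g → IsCoprime (Ideal.span {x}) g := by
    intro g hg
    rw [Ideal.isCoprime_iff_exists]
    exact ⟨x, Ideal.mem_span_singleton_self x, 1 - x, by
      have h1 := hg (show x - 1 ∈ c from hx1)
      rw [← neg_sub]
      exact g.neg_mem h1, by ring⟩
  obtain ⟨d, hd⟩ : ∃ d, Ideal.span {x} = w.asIdeal * d := by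
    obtain ⟨d, hd⟩ := Ideal.dvd_iff_le.2 ((Ideal.span_singleton_le_iff_mem w.asIdeal).2 hxw)
    exact ⟨d, hd⟩
  have hd0 : d ≠ ⊥ := by
    rintro rfl
    rw [show w.asIdeal * ⊥ = ⊥ from mul_zero _, Ideal.span_singleton_eq_bot] at hd
    exact hx0 hd
  have h1 : pv φ (Ideal.span {x}) = pv φ' (Ideal.span {x}) := by
    rw [h.per x 1 hx0 one_ne_zero (hxcop f hcf) (hcf hx1), h'.per x 1 hx0 one_ne_zero (hxcop f' hcf') (hcf' hx1),
      Ideal.span_singleton_one, ← Ideal.one_eq_top, H55R.pv_one, H55R.pv_one]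
  have h2 : pv φ d = pv φ' d := by
    refine pv_congr φ φ' d fun v hv => hS v (fun hvS => ?_) ?_
    · by_cases hvw : v = w
      · rw [hvw] at hv
        apply hxw2
        rw [pow_two]
        exact Ideal.mul_mono_right hv (hd ▸ Ideal.mem_span_singleton_self x)
      · have hxv : x ∈ v.asIdeal := hv (Ideal.mul_le_right (hd ▸ Ideal.mem_span_singleton_self x))
        have hcv : c ≤ v.asIdeal := by
          rw [hc]
          exact Ideal.mul_le_right.trans ((v.isPrime.prod_le).2 ⟨v, Finset.mem_erase.2 ⟨hvw, hvS⟩, le_rfl⟩)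
        apply v.isPrime.ne_top
        rw [Ideal.eq_top_iff_one]
        have h3 := v.asIdeal.sub_mem hxv (hcv hx1)
        rwa [sub_sub_cancel] at h3
    · rintro rfl
      apply hxw2
      rw [pow_two]
      exact Ideal.mul_mono_right hv (hd ▸ Ideal.mem_span_singleton_self x)
  rw [hd, H55R.pv_mul φ w.ne_bot hd0, H55R.pv_mul φ' w.ne_bot hd0, H55R.pv_prime, H55R.pv_prime, h2] at h1
  exact mul_right_cancel h1

end uniq

theorem order_lift {p : ℕ} (hp : p.Prime) {x : ℂˣ} {k f : ℕ} (hf : 1 ≤ f) (h : orderOf (x ^ p ^ k) = p ^ f) :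
    orderOf x = p ^ (f + k) := by
  have : Fact p.Prime := ⟨hp⟩
  obtain ⟨f, rfl⟩ : ∃ f', f = f' + 1 := ⟨f - 1, by omega⟩
  rw [show f + 1 + k = (f + k) + 1 by ring]
  refine orderOf_eq_prime_pow ?_ ?_
  · intro h1
    have h2 : (x ^ p ^ k) ^ p ^ f = 1 := by
      rw [← pow_mul, ← pow_add, add_comm k]
      exact h1
    have h3 := orderOf_dvd_of_pow_eq_one h2
    rw [h] at h3
    exact absurd (Nat.le_of_dvd (pow_pos hp.pos _) h3) (not_le.2 (Nat.pow_lt_pow_right hp.one_lt (Nat.lt_succ_self f)))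
  · rw [show f + k + 1 = k + (f + 1) by ring, pow_add, pow_mul, ← h, pow_orderOf_eq_one]

variable {F : Type} [Field F] [NumberField F] [IQ F] {K : Type} [Field K] [NumberField K]
  [Algebra F K]

/-- The Euler factors of the twists at the non-anomalous primes are units. -/
theorem efac_tw (p : ℕ) (hp : p.Prime) (V : ValuationSubring ℂ) (hV : V.valuation (p : ℂ) < 1) {M : Ideal (𝓞 F)}
    {ψ : Ideal (𝓞 F) →*₀ 𝓞 F} (h : IsHecke M ψ) {a : ℕ} {f : Ideal (𝓞 K)} {χ : Pl K → ℂˣ} (hχ : CH p (p ^ a) f χ) (w : Pl K)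
    (hwp : IsCoprime w.asIdeal (Ideal.span {(p : 𝓞 K)}))
    (hw : V.valuation (1 - (starRingEnd ℂ) (PsiP K ψ w.asIdeal)) = 1) :
    V.valuation (1 - tm (tw ψ f χ 1) 1 w.asIdeal) = 1 := by
  by_cases hf : f ≤ w.asIdeal
  · have e6 : tw ψ f χ 1 w.asIdeal = 0 := by
      refine tw_zero ψ _ _ 1 fun hcop => ?_
      exact (cop_iff _ _ w.ne_bot).1 hcop w le_rfl hf
    unfold tm
    rw [e6, zero_mul, sub_zero, map_one]
  · have e6 : tw ψ f χ 1 w.asIdeal = PsiP K ψ w.asIdeal * (χ w : ℂ) ^ 1 := by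
      rw [tw_apply ψ _ _ 1 w.ne_bot (H55R.cop_prime w _ hf), H55R.pv_prime]
    have e7 : 1 - tm (tw ψ f χ 1) 1 w.asIdeal = (1 - tm (PsiP K ψ) 1 w.asIdeal) - tm (PsiP K ψ) 1 w.asIdeal * ((χ w : ℂ) - 1) := by
      unfold tm
      rw [e6]
      ring
    have h1 := EfacP p hp V hV h w hwp hw
    have h2 : (χ w : ℂ) ^ p ^ a = 1 := by
      rw [← Units.val_pow_eq_pow_val, Units.val_eq_one]
      exact congrFun hχ.val w
    have h3 : V.valuation (tm (PsiP K ψ) 1 w.asIdeal * ((χ w : ℂ) - 1)) < V.valuation (1 - tm (PsiP K ψ) 1 w.asIdeal) := by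
      rw [h1, map_mul]
      exact lt_of_le_of_lt (mul_le_of_le_one_left' (a5_le hp h V hV w hwp)) (root_maxQ p hp V hV _ a h2)
    rw [e7, Valuation.map_sub_eq_of_lt_left _ h3, h1]

/-- The valuations of the L-values of the faithful powers of the character. -/
theorem tw_valA (p : ℕ) (hp : p.Prime) (hp2 : p ≠ 2) {M : Ideal (𝓞 F)} {ψ : Ideal (𝓞 F) →*₀ 𝓞 F}
    (h : IsHecke M ψ) (hMp : IsCoprime M (Ideal.span {(p : 𝓞 F)})) (hF : UnrP p F) (hK : UnrP p K)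
    (Ac Bc Om : ℂ) (hper : Per F Ac Bc Om) (V : ValuationSubring ℂ)
    (hV : V.valuation (p : ℂ) < 1) (hg : GoodV Ac Bc V) (hNT : NTP K p M ψ V) {n s : ℕ} (f f' : Ideal (𝓞 K))
    (φ φ' : Pl K → ℂˣ) (hφ : CH p (p ^ (n + s + 1)) f φ) (hφ' : CH p (p ^ n) f' φ')
    (hff : ∀ v : Pl K, f' ≤ v.asIdeal → f ≤ v.asIdeal)
    (hcmp : ∀ v : Pl K, ¬ f ≤ v.asIdeal → φ' v = φ v ^ p ^ (s + 1))
    (hLM : LVP F V Om (PsiP K ψ))
    (hna : ∀ w : Pl K, f' ≤ w.asIdeal → V.valuation (1 - (starRingEnd ℂ) (PsiP K ψ w.asIdeal)) = 1)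
    (A : Finset (Pl K))
    (hA : ∀ w, w ∈ A ↔ f ≤ w.asIdeal ∧ V.valuation (1 - (starRingEnd ℂ) (PsiP K ψ w.asIdeal)) ≠ 1)
    (G : Pl K → Prop) (hG : ∀ w, G w → (p : 𝓞 K) ∉ w.asIdeal → V.valuation (1 - (starRingEnd ℂ) (PsiP K ψ w.asIdeal)) = 1)
    (hAux : AuxAll p K G)
    (gg : Pl K → ℕ) (hgg : ∀ w ∈ A, gg w * orderOf (φ' w) = p ^ n) (hr : ∀ w ∈ A, gg w < p ^ n)
    (η : ℂ) (hη : IsPrimitiveRoot η (p ^ (n + s + 1))) (j : ℕ) (hj : ¬ p ∣ j) :
    ∃ Λ : ℂ → ℂ, AnalyticOnNhd ℂ Λ {s | 1 / 2 < s.re} ∧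
      (∀ s : ℂ, 3 / 2 < s.re → HasSum (tm (tw ψ f φ j) s) (Λ s)) ∧
      V.valuation (Λ 1 / Om ^ Module.finrank F K) = V.valuation (1 - η) ^ (∑ w ∈ A, gg w) := by
  classical
  have hcopp : ∀ w : Pl K, (p : 𝓞 K) ∉ w.asIdeal ↔ IsCoprime w.asIdeal (Ideal.span {(p : 𝓞 K)}) := by
    intro w
    rw [cop_iff _ _ w.ne_bot]
    constructor
    · intro h1 v hv h2
      have h3 : w = v := HeightOneSpectrum.ext (w.isMaximal.eq_of_le v.isPrime.ne_top hv)
      rw [h3] at h1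
      exact h1 ((Ideal.span_singleton_le_iff_mem _).1 h2)
    · intro h1 h2
      exact h1 w le_rfl ((Ideal.span_singleton_le_iff_mem _).2 h2)
  have hcopm : ∀ (f : Ideal (𝓞 K)) (w : Pl K), IsCoprime f (Ideal.span {(p : 𝓞 K)}) → f ≤ w.asIdeal →
      IsCoprime w.asIdeal (Ideal.span {(p : 𝓞 K)}) := by
    intro f w h1 hw
    rw [Ideal.isCoprime_iff_sup_eq] at h1 ⊢
    rw [← top_le_iff, ← h1]
    exact sup_le_sup_right hw _
  -- the modulus g
  have hfin : {w : HeightOneSpectrum (𝓞 K) | w.asIdeal ∣ f}.Finite := Ideal.finite_factors hφ.ne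
  obtain ⟨R, hR⟩ : ∃ R : Finset (Pl K), ∀ w, w ∈ R ↔ f ≤ w.asIdeal := ⟨hfin.toFinset, fun w => by
    rw [Set.Finite.mem_toFinset]
    exact Ideal.dvd_iff_le⟩
  obtain ⟨g, hgd⟩ : ∃ g, g = f' * ∏ w ∈ R \ A, w.asIdeal := ⟨_, rfl⟩
  have hgw : ∀ w : Pl K, g ≤ w.asIdeal ↔ f' ≤ w.asIdeal ∨ w ∈ R \ A := by
    intro w
    rw [hgd, w.isPrime.mul_le, w.isPrime.prod_le]
    constructor
    · rintro (h1 | ⟨v, hv, h1⟩)
      · exact Or.inl h1
      · rw [← HeightOneSpectrum.ext (v.isMaximal.eq_of_le w.isPrime.ne_top h1)]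
        exact Or.inr hv
    · rintro (h1 | h1)
      · exact Or.inl h1
      · exact Or.inr ⟨w, h1, le_rfl⟩
  have hgA : ∀ v ∈ A, ¬ g ≤ v.asIdeal := by
    intro v hv h1
    rcases (hgw v).1 h1 with h2 | h2
    · exact ((hA v).1 hv).2 (hna v h2)
    · exact (Finset.mem_sdiff.1 h2).2 hv
  have hgna : ∀ w : Pl K, g ≤ w.asIdeal → f ≤ w.asIdeal ∧ V.valuation (1 - (starRingEnd ℂ) (PsiP K ψ w.asIdeal)) = 1 := by
    intro w h1
    rcases (hgw w).1 h1 with h2 | h2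
    · exact ⟨hff w h2, hna w h2⟩
    · rw [Finset.mem_sdiff, hR] at h2
      refine ⟨h2.1, ?_⟩
      by_contra h3
      exact h2.2 ((hA w).2 ⟨h2.1, h3⟩)
  have hg0 : g ≠ ⊥ := by
    rw [hgd]
    exact mul_ne_zero hφ'.ne (Finset.prod_ne_zero_iff.2 fun v _ => v.ne_bot)
  have hgp : IsCoprime g (Ideal.span {(p : 𝓞 K)}) := by
    rw [hgd]
    refine hφ'.cop.mul_left (IsCoprime.prod_left fun v hv => ?_)
    exact hcopm f v hφ.cop ((hR v).1 (Finset.mem_sdiff.1 hv).1)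
  have hord : ∀ x : 𝓞 K, x ≠ 0 → IsCoprime (Ideal.span {x}) f → x - 1 ∈ g → pv φ (Ideal.span {x}) ^ p ^ (s + 1) = 1 := by
    intro x hx hc hx1
    have hx0' : Ideal.span {x} ≠ ⊥ := fun h1 => hx (Ideal.span_singleton_eq_bot.1 h1)
    have e1 : pv φ (Ideal.span {x}) ^ p ^ (s + 1) = pv φ' (Ideal.span {x}) := by
      rw [← H55R.pv_pow]
      refine pv_congr _ _ _ fun v hv => ?_
      rw [hcmp v ((cop_iff _ _ hx0').1 hc v hv)]
      rfl
    have hx1' : x - 1 ∈ f' := by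
      rw [hgd] at hx1
      exact Ideal.mul_le_left hx1
    have hc' : IsCoprime (Ideal.span {x}) f' := by
      rw [cop_iff _ _ hx0'] at hc ⊢
      exact fun v h1 h2 => hc v h1 (hff v h2)
    rw [e1, hφ'.per x 1 hx one_ne_zero hc' hx1', Ideal.span_singleton_one, ← Ideal.one_eq_top, H55R.pv_one]
  obtain ⟨f₀, χ₀, χ, hf0w, hf0A, hχ₀, hχ, hdec⟩ := hAux A (n + s + 1) (s + 1) f g φ (by omega) (by omega) hφ hg0 hgp
    (fun w hw => by
      by_cases h1 : w ∈ A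
      · exact Or.inr h1
      · exact Or.inl ((hgw w).2 (Or.inr (Finset.mem_sdiff.2 ⟨(hR w).2 hw, h1⟩))))
    hgA (fun v hv => (hcopp v).2 (hcopm f v hφ.cop ((hA v).1 hv).1)) hord
  -- the values of χ₀ at the primes in A
  obtain ⟨S, hS⟩ : ∃ S : Finset (Pl K), ∀ w, w ∉ S → ¬ f₀ ≤ w.asIdeal ∧ ¬ f ≤ w.asIdeal := by
    have h1 : {w : HeightOneSpectrum (𝓞 K) | w.asIdeal ∣ f₀}.Finite := Ideal.finite_factors hχ₀.ne
    refine ⟨h1.toFinset ∪ R, fun w hw => ?_⟩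
    rw [Finset.mem_union, not_or, Set.Finite.mem_toFinset, hR] at hw
    exact ⟨fun h2 => hw.1 (Ideal.dvd_iff_le.2 h2), hw.2⟩
  have hχ₀A : ∀ v ∈ A, χ₀ v ^ p ^ (s + 1) = φ' v := by
    intro v hv
    have h1 := ext_unique (ch_pow hχ₀ (p ^ (s + 1))) hφ' v (hf0A v hv) (fun h1 => ((hA v).1 hv).2 (hna v h1)) S fun w hw hwv => ?_
    · exact h1
    · obtain ⟨h2, h3⟩ := hS w hw
      have h4 : w ∉ A := fun h4 => h3 ((hA w).1 h4).1
      rw [hcmp w h3, hdec w h2 h4, mul_pow, ← Finset.prod_pow]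
      have h5 : ∏ v ∈ A, χ v w ^ p ^ (s + 1) = 1 := Finset.prod_eq_one fun u hu => congrFun (hχ u hu).val w
      rw [h5, mul_one]
      rfl
  choose! fe hfe1 hfe using fun (v : Pl K) (hv : v ∈ A) => show ∃ e : ℕ, 1 ≤ e ∧ orderOf (φ' v) = p ^ e from by
    obtain ⟨e, -, he⟩ := (Nat.dvd_prime_pow hp).1 (Dvd.intro_left _ (hgg v hv))
    refine ⟨e, ?_, he⟩
    rcases Nat.eq_zero_or_pos e with h0 | h0
    · have h1 := hgg v hv
      rw [he, h0, pow_zero, mul_one] at h1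
      exact absurd h1 (hr v hv).ne
    · exact h0
  have hroot : ∀ v ∈ A, IsPrimitiveRoot ((χ₀ ^ j) v : ℂ) (p ^ (fe v + (s + 1))) := by
    intro v hv
    have h1 : orderOf (χ₀ v) = p ^ (fe v + (s + 1)) := order_lift hp (hfe1 v hv) (by rw [hχ₀A v hv, hfe v hv])
    have h2 : IsPrimitiveRoot (χ₀ v : ℂ) (p ^ (fe v + (s + 1))) := by
      rw [← h1, ← orderOf_units]
      exact IsPrimitiveRoot.orderOf _
    have h3 : ((χ₀ ^ j) v : ℂ) = (χ₀ v : ℂ) ^ j := by rw [Pi.pow_apply, Units.val_pow_eq_pow_val]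
    rw [h3]
    exact h2.pow_of_coprime j (Nat.Coprime.pow_right _ ((Nat.Prime.coprime_iff_not_dvd hp).2 hj).symm)
  -- the L-value of the product
  have hf0na : ∀ w : Pl K, f₀ ≤ w.asIdeal → V.valuation (1 - (starRingEnd ℂ) (PsiP K ψ w.asIdeal)) = 1 := by
    intro w hw
    rcases hf0w w hw with h1 | h1
    · exact (hgna w h1).2
    · exact hG w h1 ((hcopp w).2 (hcopm f₀ w hχ₀.cop hw))
  obtain ⟨Λ1, h1a, h1s, h1v⟩ := tw_valP p hp hp2 h hMp hF hK Ac Bc Om hper V hV hg hNT f₀ A hf0A (n + s + 1) (χ₀ ^ j)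
    (ch_pow hχ₀ j) (fun v => χ v ^ j) (fun _ => s + 1) (fun v hv => ch_pow (hχ v hv) j) hLM hf0na
    (fun v hv => ((hA v).1 hv).2) (fun v => fe v + (s + 1)) hroot (fun v hv w hw => by have := hfe1 v hv; omega)
  -- the comparison of the moduli
  obtain ⟨m, hm⟩ : ∃ m, Module.finrank F K = m + 1 :=
    ⟨Module.finrank F K - 1, (Nat.sub_add_cancel Module.finrank_pos).symm⟩
  obtain ⟨fA, hfA⟩ : ∃ fA, fA = f₀ * ∏ v ∈ A, v.asIdeal := ⟨_, rfl⟩
  obtain ⟨X, hX⟩ : ∃ X, X = χ₀ ^ j * ∏ v ∈ A, χ v ^ j := ⟨_, rfl⟩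
  rw [← hfA, ← hX] at h1s
  have hfA0 : fA ≠ ⊥ := by
    rw [hfA]
    exact mul_ne_zero hχ₀.ne (Finset.prod_ne_zero_iff.2 fun v _ => v.ne_bot)
  have hfAp : IsCoprime fA (Ideal.span {(p : 𝓞 K)}) := by
    rw [hfA]
    exact hχ₀.cop.mul_left (IsCoprime.prod_left fun v hv => (hχ v hv).cop.of_mul_left_right)
  have hfAw : ∀ w : Pl K, fA ≤ w.asIdeal ↔ f₀ ≤ w.asIdeal ∨ w ∈ A := by
    intro w
    rw [hfA, w.isPrime.mul_le, w.isPrime.prod_le]
    constructor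
    · rintro (h1 | ⟨v, hv, h1⟩)
      · exact Or.inl h1
      · rw [← HeightOneSpectrum.ext (v.isMaximal.eq_of_le w.isPrime.ne_top h1)]
        exact Or.inr hv
    · rintro (h1 | h1)
      · exact Or.inl h1
      · exact Or.inr ⟨w, h1, le_rfl⟩
  have hCX : CH p (p ^ (n + s + 1)) fA X := by
    rw [hX]
    refine ch_mul (ch_mono (ch_pow hχ₀ j) dvd_rfl (by rw [hfA]; exact Ideal.mul_le_left) hfA0 hfAp)
      (ch_prod hfA0 hfAp A _ fun v hv => ch_mono (ch_pow (hχ v hv) j) (pow_dvd_pow p (by omega)) ?_ hfA0 hfAp)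
    rw [hfA, ← Finset.mul_prod_erase A (fun v => v.asIdeal) hv, ← mul_assoc]
    exact Ideal.mul_le_left
  obtain ⟨fh, hfh⟩ : ∃ fh, fh = f * fA := ⟨_, rfl⟩
  have hfh0 : fh ≠ ⊥ := by rw [hfh]; exact mul_ne_zero hφ.ne hfA0
  have hfhp : IsCoprime fh (Ideal.span {(p : 𝓞 K)}) := by rw [hfh]; exact hφ.cop.mul_left hfAp
  have hfhw : ∀ w : Pl K, fh ≤ w.asIdeal ↔ f ≤ w.asIdeal ∨ fA ≤ w.asIdeal := fun w => by rw [hfh, w.isPrime.mul_le]
  have hex : ∀ (f : Ideal (𝓞 K)) (φ : Pl K → ℂˣ), CH p (p ^ (n + s + 1)) f φ → ∃ Λ : ℂ → ℂ, AnalyticOnNhd ℂ Λ {s | 1 / 2 < s.re} ∧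
      ∀ s : ℂ, 3 / 2 < s.re → HasSum (tm (tw ψ f φ 1) s) (Λ s) := by
    intro f φ hφ
    obtain ⟨Bad, hB, hP⟩ := smvM p hp h hMp hK Ac Bc Om hper V hV hg f hφ.ne hφ.cop hm
    obtain ⟨c, q, hs, hcb, -⟩ := exists_smoothP p hp h hMp V hV hNT m Bad hB
    obtain ⟨I, _, cf, ev, -, h2⟩ := hP c q hs hcb
    obtain ⟨Λ, h3, h4, -⟩ := h2 (p ^ (n + s + 1)) φ (pow_pos hp.pos _) hφ
    exact ⟨Λ, h3, h4⟩
  obtain ⟨Λ2, h2a, h2s⟩ := hex f (φ ^ j) (ch_pow hφ j)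
  obtain ⟨Λ3, h3a, h3s⟩ := hex fh X (ch_mono hCX dvd_rfl (by rw [hfh]; exact Ideal.mul_le_right) hfh0 hfhp)
  have hNp : p ^ (n + s + 1) ≠ 0 := (pow_pos hp.pos _).ne'
  have hfinh : {w : HeightOneSpectrum (𝓞 K) | w.asIdeal ∣ fh}.Finite := Ideal.finite_factors hfh0
  obtain ⟨Rh, hRh⟩ : ∃ R : Finset (Pl K), ∀ w, w ∈ R ↔ fh ≤ w.asIdeal := ⟨hfinh.toFinset, fun w => by
    rw [Set.Finite.mem_toFinset]
    exact Ideal.dvd_iff_le⟩
  have hCH1 : ∀ {f : Ideal (𝓞 K)} {φ : Pl K → ℂˣ}, CH p (p ^ (n + s + 1)) f φ → CH 1 (p ^ (n + s + 1)) f φ := fun hφ =>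
    ⟨hφ.ne, by rw [Nat.cast_one, Ideal.span_singleton_one, ← Ideal.one_eq_top]; exact isCoprime_one_right, hφ.val, hφ.per⟩
  have c1 : Λ3 1 = (∏ w ∈ Rh, (1 - tm (tw ψ fA X 1) 1 w.asIdeal)) * Λ1 1 :=
    tw_cmpL h (p := 1) hNp fh fA hfh0 X X (hCH1 hCX) (fun v hv => (hfhw v).2 (Or.inr hv)) (fun v _ => by rw [pow_one]) 1 Λ3 Λ1
      h3a h1a (by rw [mul_one]; exact h3s) h1s Rh hRh
  have c2 : Λ3 1 = (∏ w ∈ Rh, (1 - tm (tw ψ f (φ ^ j) 1) 1 w.asIdeal)) * Λ2 1 :=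
    tw_cmpL h (p := 1) hNp fh f hfh0 X (φ ^ j) (hCH1 (ch_pow hφ j)) (fun v hv => (hfhw v).2 (Or.inl hv)) (fun v hv => by
      rw [hfhw, hfAw, not_or, not_or] at hv
      rw [pow_one, hX, Pi.mul_apply, Pi.pow_apply, Pi.pow_apply, Finset.prod_apply, hdec v hv.2.1 hv.2.2, mul_pow,
        ← Finset.prod_pow]
      rfl) 1 Λ3 Λ2 h3a h2a (by rw [mul_one]; exact h3s) h2s Rh hRh
  have u1 : V.valuation (∏ w ∈ Rh, (1 - tm (tw ψ fA X 1) 1 w.asIdeal)) = 1 := by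
    rw [map_prod]
    refine Finset.prod_eq_one fun w hw => ?_
    have hwp : IsCoprime w.asIdeal (Ideal.span {(p : 𝓞 K)}) := hcopm fh w hfhp ((hRh w).1 hw)
    by_cases hwf : fA ≤ w.asIdeal
    · have e6 : tw ψ fA X 1 w.asIdeal = 0 := by
        refine tw_zero ψ _ _ 1 fun hcop => ?_
        exact (cop_iff _ _ w.ne_bot).1 hcop w le_rfl hwf
      unfold tm
      rw [e6, zero_mul, sub_zero, map_one]
    · refine efac_tw p hp V hV h hCX w hwp ?_
      have h4 : f ≤ w.asIdeal := by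
        rcases (hfhw w).1 ((hRh w).1 hw) with h4 | h4
        · exact h4
        · exact absurd h4 hwf
      by_contra h5
      exact hwf ((hfAw w).2 (Or.inr ((hA w).2 ⟨h4, h5⟩)))
  have u2 : V.valuation (∏ w ∈ Rh, (1 - tm (tw ψ f (φ ^ j) 1) 1 w.asIdeal)) = 1 := by
    rw [map_prod]
    refine Finset.prod_eq_one fun w hw => ?_
    have hwp : IsCoprime w.asIdeal (Ideal.span {(p : 𝓞 K)}) := hcopm fh w hfhp ((hRh w).1 hw)
    by_cases hwf : f ≤ w.asIdeal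
    · have e6 : tw ψ f (φ ^ j) 1 w.asIdeal = 0 := by
        refine tw_zero ψ _ _ 1 fun hcop => ?_
        exact (cop_iff _ _ w.ne_bot).1 hcop w le_rfl hwf
      unfold tm
      rw [e6, zero_mul, sub_zero, map_one]
    · refine efac_tw p hp V hV h (ch_pow hφ j) w hwp ?_
      rcases (hfhw w).1 ((hRh w).1 hw) with h4 | h4
      · exact absurd h4 hwf
      · rcases (hfAw w).1 h4 with h5 | h5
        · exact hf0na w h5
        · exact absurd ((hA w).1 h5).1 hwf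
  have hval : V.valuation (Λ2 1 / Om ^ Module.finrank F K) = V.valuation (Λ1 1 / Om ^ Module.finrank F K) := by
    have e1 : V.valuation (Λ3 1) = V.valuation (Λ1 1) := by rw [c1, map_mul, u1, one_mul]
    have e2 : V.valuation (Λ3 1) = V.valuation (Λ2 1) := by rw [c2, map_mul, u2, one_mul]
    rw [map_div₀, map_div₀, ← e1, e2]
  refine ⟨Λ2, h2a, fun s hs => ?_, ?_⟩
  · have e1 : tw ψ f (φ ^ j) 1 = tw ψ f φ j := by
      show PsiP K ψ * tI f ((φ ^ j) ^ 1) = PsiP K ψ * tI f (φ ^ j)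
      rw [pow_one]
    rw [← e1]
    exact h2s s hs
  · rw [hval, h1v, ← Finset.prod_pow_eq_pow_sum]
    refine Finset.prod_congr rfl fun v hv => ?_
    have hle : fe v ≤ n := by
      have h1 : p ^ fe v ∣ p ^ n := by
        rw [← hfe v hv]
        exact Dvd.intro_left _ (hgg v hv)
      exact (Nat.pow_dvd_pow_iff_le_right hp.one_lt).1 h1
    have hgv : gg v = p ^ (n - fe v) := by
      have h1 := hgg v hv
      rw [hfe v hv] at h1
      have h2 : p ^ n = p ^ (n - fe v) * p ^ fe v := by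
        rw [← pow_add]
        congr 1
        omega
      rw [h2] at h1
      exact Nat.eq_of_mul_eq_mul_right (pow_pos hp.pos _) h1
    have h3 : IsPrimitiveRoot (η ^ p ^ (n - fe v)) (p ^ (fe v + (s + 1))) := by
      refine hη.pow (pow_pos hp.pos _) ?_
      rw [← pow_add]
      congr 1
      omega
    have h4 := c1_pow V hp (k := n - fe v) (m := 1) hη (by omega) hp.not_dvd_one
    rw [mul_one] at h4
    rw [eps_eq V hp (hroot v hv) h3, h4, hgv]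

end H41P
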