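import Mathlib
import Pool.Agent.Lib.H41P.N5
import Pool.Agent.Lib.H41V.B

/-! # H41P, N6: one step in the tower, when no anomalous ramified prime has residue degree 1 over M -/

open NumberField IsDedekindDomain

namespace H41P

open H41S H41V
open H55N H55P
open H55R (Pl es fs pv tI)

variable {F : Type} [Field F] [NumberField F] [IQ F]

/-- One step: K/M cyclic of degree p^(n+s+1), K' of degree p^(n+s), K₀ of degree p^n; the L-value over K₀ is a unit. The L-value over K is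
the L-value over K' times p^r, r the number of the anomalous primes of K₀ ramified in K, when no such prime has residue degree 1 over M. -/
theorem main_stepP (M K₀ K' K : Type) [Field M] [NumberField M] [Field K₀] [NumberField K₀] [Field K'] [NumberField K'] [Field K]
    [NumberField K] [Algebra F M] [Algebra F K₀] [Algebra F K'] [Algebra F K] [Algebra M K₀] [Algebra M K'] [Algebra M K]
    [Algebra K₀ K] [Algebra K' K] [IsScalarTower F M K₀] [IsScalarTower F M K'] [IsScalarTower F M K] [IsScalarTower F K₀ K]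
    [IsScalarTower F K' K] [IsScalarTower M K₀ K] [IsScalarTower M K' K] [IsGalois M K] [IsGalois M K₀] [IsGalois M K']
    [IsGalois K₀ K] [IsGalois K' K]
    (hc : IsCyclic (K ≃ₐ[M] K)) {p n s : ℕ} (hp : p.Prime) (hp2 : p ≠ 2) (hd : Module.finrank M K = p ^ (n + s + 1))
    (hd' : Module.finrank M K' = p ^ (n + s)) (hd₀ : Module.finrank M K₀ = p ^ n)
    {m : Ideal (𝓞 F)} {ψ : Ideal (𝓞 F) →*₀ 𝓞 F} (h : IsHecke m ψ)
    (hmp : IsCoprime m (Ideal.span {(p : 𝓞 F)})) (hU : UnrP p K) (Ac Bc Om : ℂ) (hper : Per F Ac Bc Om)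
    (V : ValuationSubring ℂ) (hV : V.valuation (p : ℂ) < 1) (hg : GoodV Ac Bc V) (hNT : NTP M p m ψ V)
    (hLM : LVP F V Om (PsiP M ψ))
    (hna : ∀ v : Pl M, es M K₀ v ≠ 1 → V.valuation (1 - (starRingEnd ℂ) (PsiP M ψ v.asIdeal)) = 1)
    (T : Finset (Pl K₀)) (hT : ∀ w, w ∈ T ↔ es K₀ K w ≠ 1 ∧ V.valuation (1 - (starRingEnd ℂ) (PsiP K₀ ψ w.asIdeal)) ≠ 1)
    (hr : ∀ w ∈ T, Ideal.absNorm (w.asIdeal.under (𝓞 M)) ≠ Ideal.absNorm w.asIdeal)
    (G : Pl M → Prop) (hG : ∀ w, G w → (p : 𝓞 M) ∉ w.asIdeal → V.valuation (1 - (starRingEnd ℂ) (PsiP M ψ w.asIdeal)) = 1)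
    (hAux : AuxAll p M G) (Λ' : ℂ → ℂ) (ha' : AnalyticOnNhd ℂ Λ' {s | 1 / 2 < s.re})
    (hs' : ∀ s : ℂ, 3 / 2 < s.re → HasSum (tm (PsiP K' ψ) s) (Λ' s)) :
    ∃ Λ : ℂ → ℂ, AnalyticOnNhd ℂ Λ {s | 1 / 2 < s.re} ∧
      (∀ s : ℂ, 3 / 2 < s.re → HasSum (tm (PsiP K ψ) s) (Λ s)) ∧
      V.valuation (Λ 1 / Om ^ Module.finrank F K) =
        V.valuation (Λ' 1 / Om ^ Module.finrank F K') * V.valuation (p : ℂ) ^ T.card := by
  classical
  have hN : 0 < p ^ (n + s + 1) := pow_pos hp.pos _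
  have hNs : 0 < p ^ (n + s) := pow_pos hp.pos _
  have hN' : 0 < p ^ n := pow_pos hp.pos _
  have hdK : Module.finrank K' K = p := by
    have h1 := Module.finrank_mul_finrank M K' K
    rw [hd, hd', pow_succ] at h1
    exact Nat.eq_of_mul_eq_mul_left hNs h1
  have hK₀u : UnrP p K₀ := UnrP.down K₀ K p hp hU
  have hK'u : UnrP p K' := UnrP.down K' K p hp hU
  have hMu : UnrP p M := UnrP.down M K p hp hU
  have hFu : UnrP p F := UnrP.down F K p hp hU
  have hre : IsEmpty (M →+* ℝ) := H35M.sx3_real F M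
  have hGK : Nat.card (K ≃ₐ[M] K) = p ^ (n + s + 1) := by rw [IsGalois.card_aut_eq_finrank, hd]
  have hG' : Nat.card (K' ≃ₐ[M] K') = p ^ (n + s) := by rw [IsGalois.card_aut_eq_finrank, hd']
  have hG₀ : Nat.card (K₀ ≃ₐ[M] K₀) = p ^ n := by rw [IsGalois.card_aut_eq_finrank, hd₀]
  obtain ⟨θ, hθ⟩ := b1_theta hc
  obtain ⟨θ', hθ', hθθ'⟩ := b1_pairT hc (k := p) (N := p ^ (n + s)) hp.pos hNs (by rw [hGK, pow_succ]) hG'
    (AlgEquiv.restrictNormalHom K' : (K ≃ₐ[M] K) →* (K' ≃ₐ[M] K')) (AlgEquiv.restrictNormalHom_surjective K) θ hθ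
  obtain ⟨θ₀, hθ₀, hθθ₀⟩ := b1_pairT hc (k := p ^ (s + 1)) (N := p ^ n) (pow_pos hp.pos _) hN'
    (by rw [hGK, add_assoc, pow_add]) hG₀
    (AlgEquiv.restrictNormalHom K₀ : (K ≃ₐ[M] K) →* (K₀ ≃ₐ[M] K₀)) (AlgEquiv.restrictNormalHom_surjective K) θ hθ
  have hab : ∀ a b : K ≃ₐ[M] K, a * b = b * a := by
    intro a b
    apply hθ
    rw [map_mul, map_mul, mul_comm]
  have hcmp : ∀ v : Pl M, es M K v = 1 → θ' (CFT.frob M K' v) = θ (CFT.frob M K v) ^ p := by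
    intro v hv
    rw [← hθθ', CFT.frob_res M K' K hab ((SSR.c2_unr v).2 hv)]
  obtain ⟨f, hφ, hf⟩ := b2_CH M K p hp hU hre θ hθ
  obtain ⟨f₀, hφ₀, hf₀⟩ := b2_CH M K₀ p hp hK₀u hre θ₀ hθ₀
  rw [hGK] at hφ
  rw [hG₀] at hφ₀
  have hff : ∀ v : Pl M, f₀ ≤ v.asIdeal → f ≤ v.asIdeal := by
    intro v hv
    rw [hf]
    rw [hf₀] at hv
    exact fun h1 => hv (b4_unr M K₀ K v h1).1
  have hcmp₀ : ∀ v : Pl M, ¬ f ≤ v.asIdeal → θ₀ (CFT.frob M K₀ v) = θ (CFT.frob M K v) ^ p ^ (s + 1) := by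
    intro v hv
    have hv1 : es M K v = 1 := by
      by_contra h1
      exact hv ((hf v).2 h1)
    rw [← hθθ₀, CFT.frob_res M K₀ K hab ((SSR.c2_unr v).2 hv1)]
  -- the anomalous ramified primes of M
  have hfin : {w : HeightOneSpectrum (𝓞 M) | w.asIdeal ∣ f}.Finite := Ideal.finite_factors hφ.ne
  obtain ⟨A, hA⟩ : ∃ A : Finset (Pl M), ∀ w, w ∈ A ↔ f ≤ w.asIdeal ∧
      V.valuation (1 - (starRingEnd ℂ) (PsiP M ψ w.asIdeal)) ≠ 1 :=
    ⟨hfin.toFinset.filter fun w => V.valuation (1 - (starRingEnd ℂ) (PsiP M ψ w.asIdeal)) ≠ 1, fun w => by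
      rw [Finset.mem_filter, Set.Finite.mem_toFinset]
      exact and_congr_left fun _ => Ideal.dvd_iff_le⟩
  have hB0 : ∀ v : Pl M, ∃ B : Finset (Pl K₀), ∀ w, w ∈ B ↔ w.asIdeal.under (𝓞 M) = v.asIdeal := fun v => by
    obtain ⟨B, hB, -⟩ := pt10_card (K' := K₀) v
    exact ⟨B, hB⟩
  choose B hB using hB0
  have hAu : ∀ v ∈ A, es M K₀ v = 1 := by
    intro v hv
    by_contra h1
    exact ((hA v).1 hv).2 (hna v h1)
  have hTB : T = A.biUnion B := by
    ext w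
    rw [hT, Finset.mem_biUnion]
    constructor
    · rintro ⟨h1, h2⟩
      let v : Pl M := HeightOneSpectrum.under (𝓞 M) w
      have hv : w.asIdeal.under (𝓞 M) = v.asIdeal := rfl
      refine ⟨v, ?_, (hB v w).2 hv⟩
      rw [hA, hf]
      refine ⟨fun h3 => h1 ((b4_unr M K₀ K v h3).2 w hv), fun h3 => h2 ?_⟩
      exact (adm_iff M K₀ p hp V hV v w hv (fin_deg hp hd₀ v w hv)).1 h3
    · rintro ⟨v, hvA, hwB⟩
      have hv := (hB v w).1 hwB
      have hu := hAu v hvA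
      rw [hA, hf] at hvA
      refine ⟨fun h3 => hvA.1 ?_, fun h3 => hvA.2 ?_⟩
      · rw [es_tower M K₀ K v w hv, hu, h3]
      · exact (adm_iff M K₀ p hp V hV v w hv (fin_deg hp hd₀ v w hv)).2 h3
  have hcard : ∑ v ∈ A, (B v).card = T.card := by
    rw [hTB, Finset.card_biUnion]
    intro w _ w' _ hne
    rw [Function.onFun, Finset.disjoint_left]
    intro W hW hW'
    rw [hB] at hW hW'
    exact hne (HeightOneSpectrum.ext (hW.symm.trans hW'))
  have hgg : ∀ v ∈ A, (B v).card * orderOf (θ₀ (CFT.frob M K₀ v)) = p ^ n := by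
    intro v hv
    obtain ⟨B', hB', h1, -⟩ := b5_unr M K₀ ψ θ₀ hθ₀ v (hAu v hv)
    have h2 : B' = B v := by
      ext w
      rw [hB', hB]
    rw [← h2, h1, hd₀]
  obtain ⟨η, hη⟩ : ∃ η : ℂ, IsPrimitiveRoot η (p ^ (n + s + 1)) := ⟨_, Complex.isPrimitiveRoot_exp _ hN.ne'⟩
  have hlt : ∀ v ∈ A, (B v).card < p ^ n := by
    intro v hv
    obtain ⟨B', hB', h1⟩ := pt10_card (K' := K₀) v
    have h2 : B' = B v := by
      ext w
      rw [hB', hB]
    rw [h2, hAu v hv, one_mul, hd₀] at h1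
    obtain ⟨w, hw⟩ := H55R.under_exists (K := M) (L := K₀) v
    have hw1 : w.asIdeal.under (𝓞 M) = v.asIdeal := congrArg HeightOneSpectrum.asIdeal hw
    have hwT : w ∈ T := by
      rw [hTB, Finset.mem_biUnion]
      exact ⟨v, hv, (hB v w).2 hw1⟩
    have h3 : fs M K₀ v = w.asIdeal.inertiaDeg (𝓞 M) := (SSR.c2_es v w hw).2
    haveI : w.asIdeal.LiesOver v.asIdeal := ⟨hw1.symm⟩
    have h4 : Ideal.absNorm w.asIdeal = Ideal.absNorm v.asIdeal ^ fs M K₀ v := by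
      have hvm := v.isMaximal
      have hwm := w.isMaximal
      have h5 := Ideal.absNorm_eq_pow_inertiaDeg'_of_liesOver w.asIdeal v.asIdeal v.isPrime v.ne_bot
      rw [Ideal.inertiaDeg'_algebraMap, ← Ideal.inertiaDeg_eq_of_isMaximal v.asIdeal w.asIdeal] at h5
      rw [h3, h5]
    have h5 : fs M K₀ v ≠ 1 := by
      intro h5
      rw [h5, pow_one] at h4
      exact hr w hwT (by rw [hw1, h4])
    have h6 : fs M K₀ v ≠ 0 := by
      intro h6
      rw [h6, mul_zero] at h1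
      exact hN'.ne h1
    have h7 : 0 < (B v).card := by
      rcases Nat.eq_zero_or_pos (B v).card with h8 | h8
      · rw [h8, zero_mul] at h1
        exact absurd h1 hN'.ne
      · exact h8
    rw [← h1]
    exact lt_mul_of_one_lt_right h7 (by omega)
  have key := fun (j : ℕ) (hj : ¬ p ∣ j) => tw_valA p hp hp2 h hmp hFu hMu Ac Bc Om hper V hV hg hNT f f₀
    (fun v => θ (CFT.frob M K v)) (fun v => θ₀ (CFT.frob M K₀ v)) hφ hφ₀ hff hcmp₀ hLM
    (fun v hv => hna v ((hf₀ v).1 hv)) A hA G hG hAux (fun v => (B v).card) hgg hlt η hη j hj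
  have key2 : ∀ j : ℕ, ∃ Λ : ℂ → ℂ, ¬ p ∣ j → AnalyticOnNhd ℂ Λ {s | 1 / 2 < s.re} ∧
      (∀ s : ℂ, 3 / 2 < s.re → HasSum (tm (tw ψ f (fun v => θ (CFT.frob M K v)) j) s) (Λ s)) ∧
      V.valuation (Λ 1 / Om ^ Module.finrank F M) = V.valuation (1 - η) ^ T.card := by
    intro j
    by_cases hj : p ∣ j
    · exact ⟨fun _ => 0, fun h1 => absurd hj h1⟩
    · obtain ⟨Λ, h1, h2, h3⟩ := key j hj
      exact ⟨Λ, fun _ => ⟨h1, h2, by rw [h3, hcard]⟩⟩
  choose Λ hΛ using key2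
  obtain ⟨J, hJ⟩ : ∃ J, J = (Finset.range (p ^ (n + s + 1))).filter (fun j => ¬ p ∣ j) := ⟨_, rfl⟩
  have hJm : ∀ j ∈ J, ¬ p ∣ j := fun j hj => by
    rw [hJ] at hj
    exact (Finset.mem_filter.1 hj).2
  have hAI := b6_AI M K' K ψ J (fun j => tw ψ f (fun v => θ (CFT.frob M K v)) j) (fun v => by
    rw [hJ]
    exact b6_loc M K' K hc hp hd hd' hdK ψ θ θ' hθ hθ' hcmp f hf v)
  refine ⟨fun s => Λ' s * ∏ j ∈ J, Λ j s, fun s hs => (ha' s hs).mul ?_, fun s hs => ?_, ?_⟩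
  · exact Finset.analyticAt_fun_prod _ fun j hj => (hΛ j (hJm j hj)).1 s hs
  · exact b6_L M K' K h J _ (fun j a => tw_norm_le h hN.ne' hφ j a) hAI Λ' hs' Λ
      (fun j hj => (hΛ j (hJm j hj)).2.1) s hs
  · have hJc : J.card = p ^ (n + s) * (p - 1) := by rw [hJ]; exact fin_card hp (n + s)
    have hfr : Module.finrank F K = Module.finrank F K' + Module.finrank F M * (p ^ (n + s) * (p - 1)) := by
      rw [← Module.finrank_mul_finrank F M K, ← Module.finrank_mul_finrank F M K', hd, hd', ← mul_add]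
      congr 1
      exact fin_arith hp (n + s)
    have h5 : Om ^ Module.finrank F K = Om ^ Module.finrank F K' * ∏ j ∈ J, Om ^ Module.finrank F M := by
      rw [hfr, pow_add, pow_mul, Finset.prod_const, hJc]
    show V.valuation ((Λ' 1 * ∏ j ∈ J, Λ j 1) / Om ^ Module.finrank F K) = _
    rw [h5, mul_div_mul_comm, ← Finset.prod_div_distrib, map_mul, map_prod,
      Finset.prod_congr rfl fun j hj => (hΛ j (hJm j hj)).2.2, Finset.prod_const, hJc, ← pow_mul, mul_comm T.card, pow_mul,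
      c1_root V hp hη]

end H41P
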