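import Mathlib
import Pool.Agent.Lib.H41P.N6
import Pool.Agent.Lib.H41V.Int

/-! # H41P, N7: the L-value over K, cyclic of degree p^(n+t) over M, when the L-value over the subfield K₀ of degree p^n is a unit; no anomalous
ramified prime of K₀ has residue degree 1 over M -/

open NumberField IsDedekindDomain

namespace H41P

open H41S H41V
open H55N H55P
open H55R (Pl es fs pv tI)

section absP

variable {F : Type} [Field F] [NumberField F] [IQ F]

theorem main_absP (M K₀ : Type) [Field M] [NumberField M] [Field K₀] [NumberField K₀] [Algebra F M] [Algebra F K₀] [Algebra M K₀]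
    [IsScalarTower F M K₀] [IsGalois M K₀] {p n : ℕ} (hp : p.Prime) (hp2 : p ≠ 2) (hd₀ : Module.finrank M K₀ = p ^ n)
    {m : Ideal (𝓞 F)} {ψ : Ideal (𝓞 F) →*₀ 𝓞 F} (h : IsHecke m ψ)
    (hmp : IsCoprime m (Ideal.span {(p : 𝓞 F)})) (Ac Bc Om : ℂ) (hper : Per F Ac Bc Om)
    (V : ValuationSubring ℂ) (hV : V.valuation (p : ℂ) < 1) (hg : GoodV Ac Bc V) (hNT : NTP M p m ψ V)
    (hLM : LVP F V Om (PsiP M ψ)) (hL : LVP F V Om (PsiP K₀ ψ))
    (hna : ∀ v : Pl M, es M K₀ v ≠ 1 → V.valuation (1 - (starRingEnd ℂ) (PsiP M ψ v.asIdeal)) = 1)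
    (G : Pl M → Prop) (hG : ∀ w, G w → (p : 𝓞 M) ∉ w.asIdeal → V.valuation (1 - (starRingEnd ℂ) (PsiP M ψ w.asIdeal)) = 1)
    (hAux : AuxAll p M G) :
    ∀ (t : ℕ) (K : Type) [Field K] [NumberField K] [Algebra F K] [Algebra M K] [Algebra K₀ K] [IsScalarTower F M K]
      [IsScalarTower F K₀ K] [IsScalarTower M K₀ K] [IsGalois M K] [IsGalois K₀ K],
      IsCyclic (K ≃ₐ[M] K) → Module.finrank M K = p ^ (n + t + 1) → UnrP p K →
      ∀ (T : Finset (Pl K₀)), (∀ w, w ∈ T ↔ es K₀ K w ≠ 1 ∧ V.valuation (1 - (starRingEnd ℂ) (PsiP K₀ ψ w.asIdeal)) ≠ 1) →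
      (∀ w ∈ T, Ideal.absNorm (w.asIdeal.under (𝓞 M)) ≠ Ideal.absNorm w.asIdeal) → ∀ i : Pl K₀ → ℕ, (∀ w ∈ T, es K₀ K w = p ^ i w) →
      ∃ Λ : ℂ → ℂ, AnalyticOnNhd ℂ Λ {s | 1 / 2 < s.re} ∧
        (∀ s : ℂ, 3 / 2 < s.re → HasSum (tm (PsiP K ψ) s) (Λ s)) ∧
        V.valuation (Λ 1 / Om ^ Module.finrank F K) = V.valuation (p : ℂ) ^ (∑ w ∈ T, i w) := by
  classical
  have hN' : 0 < p ^ n := pow_pos hp.pos _
  intro t
  induction t with
  | zero =>
    intro K _ _ _ _ _ _ _ _ _ _ hc hd hU T hT hr i hi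
    obtain ⟨Λ', ha', hs', hu'⟩ := hL
    obtain ⟨Λ, h1, h2, h3⟩ := main_stepP M K₀ K₀ K hc (s := 0) hp hp2 hd (by rw [add_zero]; exact hd₀) hd₀ h hmp hU Ac Bc Om hper V hV hg hNT
      hLM hna T hT hr G hG hAux Λ' ha' hs'
    refine ⟨Λ, h1, h2, ?_⟩
    have hdK : Module.finrank K₀ K = p := by
      have h1 := Module.finrank_mul_finrank M K₀ K
      rw [hd, hd₀, add_zero, pow_succ] at h1
      exact Nat.eq_of_mul_eq_mul_left hN' h1
    have hi1 : ∀ w ∈ T, i w = 1 := by
      intro w hw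
      have e1 := es_dvd K₀ K w
      rw [hdK] at e1
      have e2 := (hT w).1 hw
      rcases (Nat.dvd_prime hp).1 e1 with e3 | e3
      · exact absurd e3 e2.1
      · rw [hi w hw] at e3
        exact Nat.pow_right_injective hp.two_le (by
          show p ^ i w = p ^ 1
          rw [e3, pow_one])
    rw [h3, hu', one_mul, Finset.sum_congr rfl hi1, Finset.sum_const, smul_eq_mul, mul_one]
  | succ t ih =>
    intro K _ _ _ _ _ _ _ _ _ _ hc hd hU T hT hr i hi
    have hF : Fact p.Prime := ⟨hp⟩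
    have hdK : Module.finrank K₀ K = p ^ (t + 1 + 1) := by
      have h1 := Module.finrank_mul_finrank M K₀ K
      rw [hd, hd₀, show n + (t + 1) + 1 = n + (t + 1 + 1) by ring, pow_add] at h1
      exact Nat.eq_of_mul_eq_mul_left hN' h1
    have hfd : FiniteDimensional K₀ K := Module.finite_of_finrank_pos (by rw [hdK]; exact pow_pos hp.pos _)
    have hGal : Nat.card (K ≃ₐ[K₀] K) = p ^ (t + 1 + 1) := by rw [IsGalois.card_aut_eq_finrank, hdK]
    have hc0 : IsCyclic (K ≃ₐ[K₀] K) :=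
      isCyclic_of_injective (AlgEquiv.restrictScalarsHom M : (K ≃ₐ[K₀] K) →* (K ≃ₐ[M] K)) (AlgEquiv.restrictScalarsHom_injective M)
    obtain ⟨H, hH⟩ := Sylow.exists_subgroup_card_pow_prime (G := K ≃ₐ[K₀] K) p (n := 1)
      (by rw [hGal, pow_one]; exact dvd_pow_self p (Nat.succ_ne_zero _))
    rw [pow_one] at hH
    let K' : IntermediateField K₀ K := IntermediateField.fixedField H
    have hdK' : Module.finrank K' K = p := by
      rw [← hH]
      exact IntermediateField.finrank_fixedField_eq_card H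
    have hnf : NumberField K' := NumberField.of_module_finite K₀ K'
    have hdK0' : Module.finrank K₀ K' = p ^ (t + 1) := by
      have h1 := Module.finrank_mul_finrank K₀ K' K
      rw [hdK, hdK', pow_succ p (t + 1)] at h1
      exact Nat.eq_of_mul_eq_mul_right hp.pos h1
    have t1 : IsScalarTower F M K' := IsScalarTower.of_algebraMap_eq fun x => Subtype.ext (IsScalarTower.algebraMap_apply F M K x)
    have t2 : IsScalarTower F K₀ K' := IsScalarTower.of_algebraMap_eq fun x => Subtype.ext (IsScalarTower.algebraMap_apply F K₀ K x)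
    have t3 : IsScalarTower M K₀ K' := IsScalarTower.of_algebraMap_eq fun x => Subtype.ext (IsScalarTower.algebraMap_apply M K₀ K x)
    have t4 : IsScalarTower F K' K := IsScalarTower.of_algebraMap_eq fun x => rfl
    have t5 : IsScalarTower M K' K := IsScalarTower.of_algebraMap_eq fun x => rfl
    have hab : IsMulCommutative (K ≃ₐ[M] K) := ⟨⟨fun a b => by
      letI : CommGroup (K ≃ₐ[M] K) := IsCyclic.commGroup
      exact mul_comm a b⟩⟩
    have hG1 : IsAbelianGalois M K := { (inferInstance : IsGalois M K) with }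
    have hG2 : IsAbelianGalois M K' := IsAbelianGalois.tower_bot M K' K
    have g1 : IsGalois M K' := inferInstance
    have g2 : IsGalois K₀ K' := IsGalois.tower_top_of_isGalois M K₀ K'
    have g3 : IsGalois K' K := inferInstance
    have hfM : FiniteDimensional M K := Module.finite_of_finrank_pos (by rw [hd]; exact pow_pos hp.pos _)
    have hfM' : FiniteDimensional M K' := Module.Finite.of_restrictScalars_finite ℚ M K'
    have hc' : IsCyclic (K' ≃ₐ[M] K') := isCyclic_of_surjective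
      (AlgEquiv.restrictNormalHom K' : (K ≃ₐ[M] K) →* (K' ≃ₐ[M] K')) (AlgEquiv.restrictNormalHom_surjective K)
    have hdM' : Module.finrank M K' = p ^ (n + t + 1) := by
      rw [← Module.finrank_mul_finrank M K₀ K', hd₀, hdK0', ← pow_add, add_assoc]
    have hU' : UnrP p K' := UnrP.down K' K p hp hU
    -- the ramification indices
    have hes : ∀ w : Pl K₀, ∃ W : Pl K', W.asIdeal.under (𝓞 K₀) = w.asIdeal := by
      intro w
      obtain ⟨W, hW⟩ := H55R.under_exists (K := K₀) (L := K') w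
      exact ⟨W, congrArg HeightOneSpectrum.asIdeal hW⟩
    have hidx : ∀ w ∈ T, 1 ≤ i w ∧ es K₀ K' w = p ^ (i w - 1) := by
      intro w hw
      obtain ⟨W, hW⟩ := hes w
      have e1 := es_tower K₀ K' K w W hW
      rw [b4_ram K₀ K' K hc0 hp hdK hdK' w ((hT w).1 hw).1 W hW, hi w hw] at e1
      have e2 : 1 ≤ i w := by
        by_contra h0
        have h1 : i w = 0 := by omega
        rw [h1, pow_zero] at e1
        exact hp.one_lt.ne' (Nat.eq_one_of_mul_eq_one_left e1.symm)
      refine ⟨e2, ?_⟩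
      have e3 : p ^ i w = p ^ (i w - 1) * p := by
        rw [← pow_succ]
        congr 1
        omega
      rw [e3] at e1
      exact (Nat.eq_of_mul_eq_mul_right hp.pos e1).symm
    obtain ⟨T', hT'⟩ : ∃ T' : Finset (Pl K₀), T' = T.filter fun w => es K₀ K' w ≠ 1 := ⟨_, rfl⟩
    have hTT : T' ⊆ T := by
      rw [hT']
      exact Finset.filter_subset _ _
    have hT2 : ∀ w, w ∈ T' ↔ es K₀ K' w ≠ 1 ∧ V.valuation (1 - (starRingEnd ℂ) (PsiP K₀ ψ w.asIdeal)) ≠ 1 := by
      intro w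
      rw [hT', Finset.mem_filter, hT]
      constructor
      · rintro ⟨⟨-, h2⟩, h3⟩
        exact ⟨h3, h2⟩
      · rintro ⟨h1, h2⟩
        refine ⟨⟨fun h3 => h1 ?_, h2⟩, h1⟩
        obtain ⟨W, hW⟩ := hes w
        have e1 := es_tower K₀ K' K w W hW
        rw [h3] at e1
        exact Nat.eq_one_of_mul_eq_one_right e1.symm
    obtain ⟨Λ', ha', hs', hv'⟩ := ih K' hc' hdM' hU' T' hT2 (fun w hw => hr w (hTT hw)) (fun w => i w - 1)
      (fun w hw => (hidx w (hTT hw)).2)
    obtain ⟨Λ, h1, h2, h3⟩ := main_stepP M K₀ K' K hc (s := t + 1) hp hp2 hd hdM' hd₀ h hmp hU Ac Bc Om hper V hV hg hNT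
      hLM hna T hT hr G hG hAux Λ' ha' hs'
    refine ⟨Λ, h1, h2, ?_⟩
    rw [h3, hv', ← pow_add]
    congr 1
    have e1 : ∑ w ∈ T', (i w - 1) = ∑ w ∈ T, (i w - 1) := by
      refine Finset.sum_subset hTT fun w hw hw' => ?_
      have h4 : es K₀ K' w = 1 := by
        by_contra h5
        apply hw'
        rw [hT', Finset.mem_filter]
        exact ⟨hw, h5⟩
      have h5 := (hidx w hw).2
      rw [h4] at h5
      rcases Nat.eq_zero_or_pos (i w - 1) with h6 | h6
      · exact h6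
      · exact absurd h5 (Nat.one_lt_pow h6.ne' hp.one_lt).ne
    rw [e1, Finset.card_eq_sum_ones, ← Finset.sum_add_distrib]
    refine Finset.sum_congr rfl fun w hw => ?_
    have h4 := (hidx w hw).1
    omega

end absP

variable {F : Type} [Field F] [NumberField F] {Ω : Type} [Field Ω] [DecidableEq Ω]
  [Algebra F Ω] [IsAlgClosed Ω] [Algebra.IsAlgebraic F Ω] [CharZero Ω]

/-- THE L-VALUE OVER N, N/M cyclic of degree p^(n+t), t ≥ 1, N' the subfield of degree p^n, when the L-value over N' is a unit at V and no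
prime of N' which is ramified in N and where 1 minus the conjugate of the Hecke character is not a unit at V has residue degree 1 over M. -/
theorem main_intP [IQ F] {p n t : ℕ} (hp : p.Prime) (hp2 : p ≠ 2) (ht : 1 ≤ t) (M N' N : IntermediateField F Ω) [NumberField M] [NumberField N']
    [NumberField N] (le : M ≤ N') (le' : N' ≤ N) (γ : Ω ≃ₐ[F] Ω) (hγ : γ ∈ M.fixingSubgroup)
    (nrm : ∀ s ∈ M.fixingSubgroup, ∀ x ∈ N, s x ∈ N)
    (gen : ∀ s ∈ M.fixingSubgroup, ∃ k : ℕ, ∃ u ∈ N.fixingSubgroup, s = γ ^ k * u)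
    (deg : Module.finrank F N = Module.finrank F M * p ^ (n + t)) (deg' : Module.finrank F N = Module.finrank F N' * p ^ t)
    {m : Ideal (𝓞 F)} {ψ : Ideal (𝓞 F) →*₀ 𝓞 F} (h : IsHecke m ψ)
    (hmp : IsCoprime m (Ideal.span {(p : 𝓞 F)})) (hU : UnrP p N) (Ac Bc Om : ℂ) (hper : Per F Ac Bc Om)
    (V : ValuationSubring ℂ) (hV : V.valuation (p : ℂ) < 1) (hg : GoodV Ac Bc V) (hNT : NTP M p m ψ V)
    (hL : LVP F V Om (PsiP N' ψ)) (T : Finset (HeightOneSpectrum (𝓞 N')))
    (hT : ∀ w, w ∈ T ↔ Ram N' N w.asIdeal ∧ V.valuation (1 - (starRingEnd ℂ) (PsiP N' ψ w.asIdeal)) ≠ 1)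
    (hr : ∀ w ∈ T, letI := s13_alg le; Ideal.absNorm (w.asIdeal.under (𝓞 M)) ≠ Ideal.absNorm w.asIdeal)
    (G : HeightOneSpectrum (𝓞 M) → Prop)
    (hG : ∀ w, G w → (p : 𝓞 M) ∉ w.asIdeal → V.valuation (1 - (starRingEnd ℂ) (PsiP M ψ w.asIdeal)) = 1)
    (hAux : AuxAll p M G) (i : HeightOneSpectrum (𝓞 N') → ℕ) (hi : ∀ w ∈ T, eI le' w = p ^ i w) :
    ∃ Λ : ℂ → ℂ, AnalyticOnNhd ℂ Λ {s | 1 / 2 < s.re} ∧
      (∀ s : ℂ, 3 / 2 < s.re → HasSum (tm (PsiP N ψ) s) (Λ s)) ∧
      V.valuation (Λ 1 / Om ^ Module.finrank F N) = V.valuation (p : ℂ) ^ (∑ w ∈ T, i w) := by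
  obtain ⟨t, rfl⟩ : ∃ t', t = t' + 1 := ⟨t - 1, by omega⟩
  have hNf : FiniteDimensional F N := Module.Finite.of_restrictScalars_finite ℚ F N
  have hN'f : FiniteDimensional F N' := Module.Finite.of_restrictScalars_finite ℚ F N'
  have hMf : FiniteDimensional F M := Module.Finite.of_restrictScalars_finite ℚ F M
  have hL0 : PExt p M N := ⟨hNf, le.trans le', nrm, ⟨n + (t + 1), deg⟩⟩
  letI a1 : Algebra M N' := s13_alg le
  letI a2 : Algebra M N := s13_alg (le.trans le')
  letI a3 : Algebra N' N := s13_alg le'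
  have t1 : IsScalarTower F M N' := alg_tower M N' le
  have t2 : IsScalarTower F M N := alg_tower M N (le.trans le')
  have t3 : IsScalarTower F N' N := alg_tower N' N le'
  have t4 : IsScalarTower M N' N := IsScalarTower.of_algebraMap_eq fun x => rfl
  have g1 : IsGalois M N := s13_galois M N (le.trans le') nrm
  have hcyc : IsCyclic (N ≃ₐ[M] N) := int_cyc M N (le.trans le') γ hγ nrm gen
  have g3 : IsGalois N' N := IsGalois.tower_top_of_isGalois M N' N
  have hab : IsMulCommutative (N ≃ₐ[M] N) := ⟨⟨fun a b => by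
    letI : CommGroup (N ≃ₐ[M] N) := IsCyclic.commGroup
    exact mul_comm a b⟩⟩
  have g2 : IsGalois M N' := by
    have h1 : IsAbelianGalois M N := { g1 with }
    have h2 : IsAbelianGalois M N' := IsAbelianGalois.tower_bot M N' N
    infer_instance
  have hMpos : 0 < Module.finrank F M := Module.finrank_pos
  have hd : Module.finrank M N = p ^ (n + t + 1) := by
    have h1 := Module.finrank_mul_finrank F M N
    rw [deg] at h1
    exact Nat.eq_of_mul_eq_mul_left hMpos h1
  have hd' : Module.finrank M N' = p ^ n := by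
    have h1 := Module.finrank_mul_finrank F M N'
    have h2 : Module.finrank F M * Module.finrank M N' * p ^ (t + 1) = Module.finrank F M * p ^ n * p ^ (t + 1) := by
      rw [h1, ← deg', deg, pow_add, mul_assoc]
    exact Nat.eq_of_mul_eq_mul_left hMpos (Nat.eq_of_mul_eq_mul_right (pow_pos hp.pos _) h2)
  have hU' : UnrP p N' := UnrP.down N' N p hp hU
  obtain ⟨hLM, hna⟩ := (LVP_tower_iff p hp M N hL0 h hmp Ac Bc Om hper V hV hg hNT N' le le' hU').1 hL
  refine main_absP M N' hp hp2 hd' h hmp Ac Bc Om hper V hV hg hNT hLM hL (fun v hv => ?_) G hG hAux t N hcyc hd hU T (fun w => ?_) hr i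
    (fun w hw => hi w hw)
  · exact hna v ((ram_es M N' le v g2).2 hv)
  · rw [hT, ram_es N' N le' w g3]

end H41P
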