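import Mathlib
import Pool.Agent.Lib.H41P.E1
import Pool.Agent.Lib.H41P.N7
import Pool.Agent.Lib.H41V.Z2
import Pool.Agent.Lib.H13V.StmP

/-! # H41P, E2: the analytic half of theorem (T+) -/

open NumberField IsDedekindDomain WeierstrassCurve

namespace H41P

open H55N H55P
open H41V
open H55P (IQ UnrP PExt PsiP ValG)
open H55K H55K.TQ
open H55R (Pl es fs)
open H13T (AnR AnW emb)
open H13V (eK HypP)
open H55G (OkM RelV1 RelV2 relV1_of relV2_of ok_of ok_up lunit_iffV)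

variable {F : Type} [Field F] [NumberField F] [IQ F]

/-- The primes whose residue field has a number of points of the curve which is prime to p. -/
def GW (p : ℕ) (W₀ : WeierstrassCurve (𝓞 F)) (L : Type) [Field L] [NumberField L] [Algebra F L] (w : Pl L) : Prop :=
  ¬ p ∣ Nat.card (W₀⁄(𝓞 L ⧸ w.asIdeal)).toAffine.Point

/-- The Euler factors at these primes are units. -/
theorem gw_unit {W₀ : WeierstrassCurve (𝓞 F)} {Om : ℂ} {m : Ideal (𝓞 F)} {ψ : Ideal (𝓞 F) →*₀ 𝓞 F} {p : ℕ}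
    (hH : BaseH F W₀ Om m ψ) (hp : PrimeH F W₀ p) {V : ValuationSubring ℂ} (hV : V.valuation (p : ℂ) < 1)
    {L : Type} [Field L] [NumberField L] [Algebra F L] (w : Pl L) (h : GW p W₀ L w) :
    V.valuation (1 - (starRingEnd ℂ) (PsiP L ψ w.asIdeal)) = 1 := by
  have e1 : 1 - (starRingEnd ℂ) (PsiP L ψ w.asIdeal) = eF F (1 - ψ (Ideal.relNorm (𝓞 F) w.asIdeal)) := by
    rw [H55P.PsiP_apply, Complex.conj_conj, map_sub, map_one]
  rw [e1]
  exact (H55P.gen_unit p hp.prime _ ((H13R.y10_locR hH hp.prime w).2 fun _ => h) V hV).1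

/-- The L-value over N. -/
theorem z2_valP {W₀ : WeierstrassCurve (𝓞 F)} {Om : ℂ} {m : Ideal (𝓞 F)} {ψ : Ideal (𝓞 F) →*₀ 𝓞 F} {p n t : ℕ}
    (hH : BaseH F W₀ Om m ψ) (hp : PrimeH F W₀ p) {M N' N : IntermediateField F (AlgebraicClosure F)} [NumberField M]
    [NumberField N'] [NumberField N] (ht : 1 ≤ t) (le : M ≤ N') (le' : N' ≤ N) {γ : AlgebraicClosure F ≃ₐ[F] AlgebraicClosure F}
    (hγ : γ ∈ M.fixingSubgroup) (nrm : ∀ s ∈ M.fixingSubgroup, ∀ x ∈ N, s x ∈ N)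
    (gen : ∀ s ∈ M.fixingSubgroup, ∃ k : ℕ, ∃ u ∈ N.fixingSubgroup, s = γ ^ k * u)
    (deg : Module.finrank F N = Module.finrank F M * p ^ (n + t)) (deg' : Module.finrank F N = Module.finrank F N' * p ^ t)
    (hU : UnrP p N) (hval : ValG p Om ψ N') (hfin : (AnW p W₀ N' N).Finite)
    (nsp : ∀ w ∈ AnW p W₀ N' N, letI := H55P.s13_alg le; Ideal.absNorm (w.asIdeal.under (𝓞 M)) ≠ Ideal.absNorm w.asIdeal)
    (hAux : AuxAll p M (GW p W₀ M)) :
    ∃ r : ℕ, ∏ w ∈ hfin.toFinset, eI le' w = p ^ r ∧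
      ∃ Φ : ℂ → ℂ, AnalyticOnNhd ℂ Φ {s | 1 / 2 < s.re} ∧ (∀ s : ℂ, 3 / 2 < s.re → HasSum (tm (PsiP N ψ) s) (Φ s)) ∧ Φ 1 ≠ 0 ∧
        ∀ V : ValuationSubring ℂ, V.valuation (p : ℂ) < 1 →
          V.valuation (Φ 1 / Om ^ Module.finrank F N) = V.valuation (p : ℂ) ^ r := by
  classical
  have hpp := hp.prime
  have hp2 : p ≠ 2 := by
    have := hp.five
    omega
  have hNf : FiniteDimensional F N := Module.Finite.of_restrictScalars_finite ℚ F N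
  have hUM : UnrP p M := H13R.unr_le hpp (le.trans le') hU
  have hL : PExt p M N := ⟨hNf, le.trans le', nrm, ⟨n + t, deg⟩⟩
  have nrm' : ∀ s ∈ N'.fixingSubgroup, ∀ x ∈ N, s x ∈ N := fun s hs x hx =>
    nrm s (IntermediateField.fixingSubgroup_antitone le hs) x hx
  have hL' : PExt p N' N := ⟨hNf, le', nrm', ⟨t, deg'⟩⟩
  have hcop := y10_cop hH hp
  have hm : IsCoprime m (Ideal.span {(p : 𝓞 F)}) := hcop.of_mul_left_right
  have hΔ : IsCoprime (Ideal.span {W₀.Δ}) (Ideal.span {(p : 𝓞 F)}) := hcop.of_mul_left_left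
  obtain ⟨v₀, hv₀⟩ := H13R.exists_goodGR hH hp M hUM
  obtain ⟨Λ, hΛa, hΛs, -, hΛu⟩ := hval
  have hi : ∀ w : HeightOneSpectrum (𝓞 N'), ∃ i : ℕ, eI le' w = p ^ i := by
    intro w
    letI := H55P.s13_alg le'
    have hG : IsGalois N' N := H55P.s13_galois N' N le' nrm'
    have t3 : IsScalarTower F N' N := IsScalarTower.of_algebraMap_eq fun x => rfl
    have hN'f : FiniteDimensional F N' := Module.Finite.of_restrictScalars_finite ℚ F N'
    have hd : Module.finrank N' N = p ^ t := by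
      have h1 := Module.finrank_mul_finrank F N' N
      rw [deg'] at h1
      exact Nat.eq_of_mul_eq_mul_left Module.finrank_pos h1
    have h1 := es_dvd N' N w
    rw [hd] at h1
    obtain ⟨i, -, hi⟩ := (Nat.dvd_prime_pow hpp).1 h1
    exact ⟨i, hi⟩
  choose i hi using hi
  obtain ⟨T, hT⟩ : ∃ T : Finset (HeightOneSpectrum (𝓞 N')), T = hfin.toFinset := ⟨_, rfl⟩
  have hTm : ∀ w, w ∈ T ↔ w ∈ AnW p W₀ N' N := fun w => by rw [hT, Set.Finite.mem_toFinset]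
  have key := fun (V : ValuationSubring ℂ) (hV : V.valuation (p : ℂ) < 1) =>
    main_intP (m := m) (ψ := ψ) hpp hp2 ht M N' N le le' γ hγ nrm gen deg deg' hH.data.hecke hm hU _ _ Om hH.data.per V hV
      (H55P.gen_good p hpp hp.five W₀ hΔ V hV) (H55P.gen_ntp p hpp M v₀ hv₀ V hV) ⟨Λ, hΛa, hΛs, hΛu V hV⟩ T
      (fun w => by
        rw [hTm]
        exact H35Z.z1_set hH hp hV hL' le' le_rfl hU w) (fun w hw => nsp w ((hTm w).1 hw)) (GW p W₀ M)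
      (fun w hw _ => gw_unit hH hp hV w hw) hAux i (fun w _ => hi w)
  refine ⟨∑ w ∈ T, i w, ?_, ?_⟩
  · rw [← hT, ← Finset.prod_pow_eq_pow_sum]
    exact Finset.prod_congr rfl fun w _ => hi w
  obtain ⟨V₀, hV₀⟩ := H55P.exists_above_p p hpp
  obtain ⟨Φ, h1, h2, h3⟩ := key V₀ hV₀
  refine ⟨Φ, h1, h2, ?_, fun V hV => ?_⟩
  · intro h0
    rw [h0, zero_div, map_zero] at h3
    exact pow_ne_zero _ ((Valuation.ne_zero_iff _).2 (Nat.cast_ne_zero.2 hpp.ne_zero)) h3.symm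
  · obtain ⟨Φ', h1', h2', h3'⟩ := key V hV
    have h6 : Φ 1 = Φ' 1 := ident Φ Φ' h1 h1' (fun s hs => (h2 s hs).unique (h2' s hs)) 1 (by norm_num)
    rw [h6]
    exact h3'

variable {W : WeierstrassCurve ℤ} {Om : ℂ} {m : Ideal (𝓞 F)} {ψ : Ideal (𝓞 F) →*₀ 𝓞 F} {p : ℕ}

/-- The analytic half over K. -/
theorem z4_anaP (hH : BaseH F (W⁄(𝓞 F)) Om m ψ) (hp : PrimeH F (W⁄(𝓞 F)) p) {M K' K : Type} [Field M] [NumberField M] [Field K']
    [NumberField K'] [Field K] [NumberField K] [Algebra M K'] [Algebra K' K] [Algebra M K] (ιK : K →ₐ[ℚ] AlgebraicClosure F) {n t : ℕ}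
    (h : HypP F p n t W M K' K ιK)
    (hAux : AuxAll p (KG F M (emb ιK : M →ₐ[ℚ] AlgebraicClosure F)) (GW p (W⁄(𝓞 F)) (KG F M (emb ιK : M →ₐ[ℚ] AlgebraicClosure F)))) :
    ∃ Λ : ℂ → ℂ, AnalyticOnNhd ℂ Λ {s | 1 / 2 < s.re} ∧
      (∀ s : ℂ, 3 / 2 < s.re → LSeriesSummable (fun n => (((W⁄K).LFunction n : ℤ) : ℂ)) s ∧ Λ s = (W⁄K).LSeries s) ∧
      Λ 1 ≠ 0 ∧
      ∀ L : PeriodPair, PerZ W L → ∀ V : ValuationSubring ℂ, V.valuation (p : ℂ) < 1 →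
        V.valuation (lG K W L (Λ 1)) = V.valuation (((∏ᶠ w : AnR p W K' K, eK K w.1) ^ 2 : ℕ) : ℂ) := by
  have hpp := hp.prime
  have hp2 : p ≠ 2 := by
    have := hp.five
    omega
  obtain ⟨γ, hγ, nrm, gen, -, -⟩ := q_cycT (F := F) hpp hp2 h.cyc ιK
  obtain ⟨hle1, hle2⟩ := q_leT h.cyc ιK
  obtain ⟨deg, deg'⟩ := q_degFT hpp hp2 h.cyc ιK
  have hfN : FiniteDimensional F (KG F K ιK) := H13R.kg_fin F K ιK
  have hfN' : FiniteDimensional F (KG F K' (emb ιK : K' →ₐ[ℚ] AlgebraicClosure F)) := H13R.kg_fin F K' _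
  have hfM : FiniteDimensional F (KG F M (emb ιK : M →ₐ[ℚ] AlgebraicClosure F)) := H13R.kg_fin F M _
  have hU : UnrP p (KG F K ιK) := H35Z.unr_up hpp hp2 hp.unr K ιK h.unr
  have hUK' : UnrP p K' := H55P.UnrP.down K' K p hpp h.unr
  have hL1 : PExt p (KG F M (emb ιK : M →ₐ[ℚ] AlgebraicClosure F)) (KG F K ιK) := ⟨hfN, hle1.trans hle2, nrm, ⟨n + t, deg⟩⟩
  have hUM := H13R.unr_le hpp (hle1.trans hle2) hU
  have hUN' := H13R.unr_le hpp hle2 hU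
  have hLU : H13R.LUnitG p W K' := (H13R.an_iff hpp h.unit.1.2.2.2).1 h.unit.2
  have hR' : RelV1 p W Om ψ K' (KG F K' (emb ιK : K' →ₐ[ℚ] AlgebraicClosure F)) :=
    relV1_of hH hp K' (emb ιK : K' →ₐ[ℚ] AlgebraicClosure F) hUK'
      (ok_of hH K' (emb ιK : K' →ₐ[ℚ] AlgebraicClosure F) (ok_up hH hp hL1 hle1 hle2 h.ok))
  have hR : RelV2 p W Om ψ K (KG F K ιK) :=
    relV2_of hH hp K ιK (ok_of hH K ιK (ok_up hH hp hL1 (hle1.trans hle2) le_rfl h.ok))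
  have hI' := H13R.gen_intR hH hp hUM hL1 hle1 hle2 hUN'
  have hval := (lunit_iffV hH hp K' (KG F K' (emb ιK : K' →ₐ[ℚ] AlgebraicClosure F)) hR' hI').1 hLU
  obtain ⟨d, hd, hdeg, hfR, hfW, hcard, hprod, -⟩ := q_prodT hpp hp2 h.cyc h.unr hH ιK
  obtain ⟨r, hr1, Φ, hΦa, hΦs, hΦ1, hv⟩ := z2_valP hH hp h.pos hle1 hle2 hγ nrm gen deg deg' hU hval hfW
    (fun w hw => ze_nsp hpp hp2 h.cyc h.unr hH ιK h.nsp w hw) hAux
  -- the exponents
  choose i hi using fun w : Pl K' => q_powT hpp h.cyc w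
  have e1 : ∏ w ∈ hfR.toFinset, eK K w = p ^ (∑ w ∈ hfR.toFinset, i w) := by
    rw [← Finset.prod_pow_eq_pow_sum]
    exact Finset.prod_congr rfl fun w _ => (hi w).2
  have e2 : r = d * ∑ w ∈ hfR.toFinset, i w := by
    have h3 := hprod (A := ℕ) (fun k => k)
    rw [hr1, e1, ← pow_mul, mul_comm _ d] at h3
    exact Nat.pow_right_injective hpp.two_le h3
  obtain ⟨Λ, h1, h2, h3, h4⟩ := H41G.z3_realO hH hp K ιK h.unr hR hΦa hΦs hΦ1 hd hdeg e2 hv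
  refine ⟨Λ, h1, h2, h3, fun L hL V hV => ?_⟩
  have e3 : ∏ᶠ w : AnR p W K' K, eK K w.1 = p ^ (∑ w ∈ hfR.toFinset, i w) := by
    rw [← e1, ← finprod_mem_eq_finite_toFinset_prod (fun w => eK K w) hfR]
    exact finprod_set_coe_eq_finprod_mem (f := fun w => eK K w) _
  rw [h4 L hL V hV, e3, Nat.cast_pow, Nat.cast_pow, map_pow, map_pow, ← pow_mul, mul_comm]

end H41P
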