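import Mathlib
import Pool.Agent.Lib.H41P.E2
import Pool.Agent.Lib.H41V.Z4
import Pool.Agent.Lib.H13P.C0

/-! # H41P, E3: the data of theorem (T+) over the fields generated by F -/

open NumberField IsDedekindDomain WeierstrassCurve

namespace H41P

open H55N
open H41V
open H55P (IQ UnrP PExt)
open H55K H55K.TQ
open H55R (Pl es fs)
open H13T (AnR AnW emb)
open H13V (eK eN HypP)
open H13P (CycP)
open H13S (Abv)
open H55G (OkM)

variable {F : Type} [Field F] [NumberField F] [IQ F] {p n t : ℕ}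

/-- The tower. -/
theorem zp_cyc (hp : p.Prime) (hp2 : p ≠ 2) {M K' K : Type} [Field M] [NumberField M] [Field K'] [NumberField K'] [Field K]
    [NumberField K] [Algebra M K'] [Algebra K' K] [Algebra M K] (h : H13V.CycT p n t M K' K) (hn : 1 ≤ n) (ht : 1 ≤ t)
    (ιK : K →ₐ[ℚ] AlgebraicClosure F) :
    ∃ γ, CycP p n t (KG F M (emb ιK : M →ₐ[ℚ] AlgebraicClosure F)) (KG F K' (emb ιK : K' →ₐ[ℚ] AlgebraicClosure F)) (KG F K ιK) γ := by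
  obtain ⟨γ, hγ, nrm, gen, ord, mid⟩ := q_cycT (F := F) hp hp2 h ιK
  obtain ⟨hle1, hle2⟩ := q_leT h ιK
  obtain ⟨deg, deg'⟩ := q_degFT hp hp2 h ιK
  exact ⟨γ, hn, ht, H13R.kg_fin F K ιK, hle1, hle2, hγ, nrm, gen, ord, mid, deg, deg'⟩

/-- The primes below a place. -/
theorem zp_abv {M N : IntermediateField F (AlgebraicClosure F)} [NumberField M] [NumberField N] (hle : M ≤ N)
    {V : ValuationSubring (AlgebraicClosure F)} {v : HeightOneSpectrum (𝓞 M)} {w : HeightOneSpectrum (𝓞 N)}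
    (hw : Abv N V w) (hv : Abv M V v) : letI := H55P.s13_alg hle; w.asIdeal.under (𝓞 M) = v.asIdeal := by
  letI := H55P.s13_alg hle
  ext x
  rw [Ideal.mem_comap, ← HeightOneSpectrum.valuation_lt_one_iff_mem (K := N), ← HeightOneSpectrum.valuation_lt_one_iff_mem (K := M),
    ← hv.lt, ← hw.lt]
  rfl

/-- The data over the fields generated by F. -/
theorem zp_data {W : WeierstrassCurve ℤ} {Om : ℂ} {m : Ideal (𝓞 F)} {ψ : Ideal (𝓞 F) →*₀ 𝓞 F} (hH : BaseH F (W⁄(𝓞 F)) Om m ψ)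
    (hp : PrimeH F (W⁄(𝓞 F)) p) {M K' K : Type} [Field M] [NumberField M] [Field K']
    [NumberField K'] [Field K] [NumberField K] [Algebra M K'] [Algebra K' K] [Algebra M K] (ιK : K →ₐ[ℚ] AlgebraicClosure F)
    (h : HypP F p n t W M K' K ιK) :
    (∃ γ, CycP p n t (KG F M (emb ιK : M →ₐ[ℚ] AlgebraicClosure F)) (KG F K' (emb ιK : K' →ₐ[ℚ] AlgebraicClosure F)) (KG F K ιK) γ) ∧
      UnrP p (KG F K ιK) ∧ OkM p (W⁄(𝓞 F)) (KG F M (emb ιK : M →ₐ[ℚ] AlgebraicClosure F)) ∧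
      H55P.SelG p (W⁄(𝓞 F)) (KG F K' (emb ιK : K' →ₐ[ℚ] AlgebraicClosure F)) ∧
      (AnW p (W⁄(𝓞 F)) (KG F K' (emb ιK : K' →ₐ[ℚ] AlgebraicClosure F)) (KG F K ιK)).Finite ∧
      (∀ w ∈ AnW p (W⁄(𝓞 F)) (KG F K' (emb ιK : K' →ₐ[ℚ] AlgebraicClosure F)) (KG F K ιK),
        ∀ v : HeightOneSpectrum (𝓞 (KG F M (emb ιK : M →ₐ[ℚ] AlgebraicClosure F))), ∀ V : ValuationSubring (AlgebraicClosure F),
          Abv (KG F K' (emb ιK : K' →ₐ[ℚ] AlgebraicClosure F)) V w → Abv (KG F M (emb ιK : M →ₐ[ℚ] AlgebraicClosure F)) V v →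
            Ideal.absNorm v.asIdeal ≠ Ideal.absNorm w.asIdeal) ∧
      ∀ w ∈ AnW p (W⁄(𝓞 F)) (KG F K' (emb ιK : K' →ₐ[ℚ] AlgebraicClosure F)) (KG F K ιK),
        (eN (q_leT h.cyc ιK).2 w) ^ 2 ∣
          Nat.card ((W⁄(𝓞 F))⁄(𝓞 (KG F K' (emb ιK : K' →ₐ[ℚ] AlgebraicClosure F)) ⧸ w.asIdeal)).toAffine.Point := by
  have hpp := hp.prime
  have hp2 : p ≠ 2 := by
    have := hp.five
    omega
  obtain ⟨d, hd, hdeg, hfR, hfW, -⟩ := q_prodT hpp hp2 h.cyc h.unr hH ιK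
  refine ⟨zp_cyc hpp hp2 h.cyc h.posn h.pos ιK, H35Z.unr_up hpp hp2 hp.unr K ιK h.unr, h.ok,
    H13R.selG_of_triv hH hpp hp2 hp.unr K' (emb ιK) h.unit.1.1, hfW, fun w hw v V hwV hvV => ?_, fun w hw => ?_⟩
  · have h1 := ze_nsp hpp hp2 h.cyc h.unr hH ιK h.nsp w hw
    have h2 := zp_abv (q_leT h.cyc ιK).1 hwV hvV
    rw [← h2]
    exact h1
  · obtain ⟨w₀, -, hw₀, he, -, hc⟩ := ze_sets hpp hp2 h.cyc h.unr hH ιK w hw
    rw [hc, z7_eN, he]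
    exact h.ful w₀ hw₀

end H41P
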