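import Mathlib
import Pool.Agent.Lib.H41P.E3

/-! # H41P, E4: assembly of theorem (T+) from its algebraic half, its analytic half and the auxiliary characters -/

open NumberField IsDedekindDomain WeierstrassCurve

namespace H41P

open H55N
open H41V
open H55P (IQ UnrP PExt)
open H55K H55K.TQ
open H55R (Pl es fs)
open H13T (AnR AnW emb)
open H13V (eK ShaG HypP AtKT ShaThmP)
open H55G (OkM okm_tw lfun_tw)
open H28I (TW tw_prime)
open H35Z (z5_AnR z5_fin z5_disc)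
open SSG (fin_ell)

/-- The algebraic half of the theorem, over K. -/
def AlgP (F : Type) [Field F] [NumberField F] [IQ F] (p : ℕ) (W : WeierstrassCurve ℤ) : Prop :=
  ∀ (M K' K : Type) [Field M] [NumberField M] [Field K'] [NumberField K'] [Field K] [NumberField K] [Algebra M K'] [Algebra K' K]
    [Algebra M K] (ιK : K →ₐ[ℚ] AlgebraicClosure F) (n t : ℕ), HypP F p n t W M K' K ιK →
      (Finite (W⁄K).toAffine.Point ∧ ¬ p ∣ Nat.card (W⁄K).toAffine.Point) ∧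
        Nonempty (ShaG p K (W⁄K) ≃+ ((w : AnR p W K' K) → ZMod (eK K w.1) × ZMod (eK K w.1)))

/-- The auxiliary characters. -/
def AuxH (F : Type) [Field F] [NumberField F] [IQ F] (p : ℕ) (W₀ : WeierstrassCurve (𝓞 F)) : Prop :=
  ∀ (L : IntermediateField F (AlgebraicClosure F)) [NumberField L], UnrP p L → AuxAll p L (GW p W₀ L)

variable {F : Type} [Field F] [NumberField F] [IQ F]
variable {W W' : WeierstrassCurve ℤ} {Om : ℂ} {m : Ideal (𝓞 F)} {ψ : Ideal (𝓞 F) →*₀ 𝓞 F} {kap : ℤ} {e t u lam : ℚ} {p : ℕ}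

open Classical in
/-- THE THEOREM for complex multiplication by the integers of F. -/
theorem shaP_max (hH : BaseH F (W⁄(𝓞 F)) Om m ψ) (hp : PrimeH F (W⁄(𝓞 F)) p) (hA : AlgP F p W) (hX : AuxH F p (W⁄(𝓞 F))) :
    ShaThmP F p W := by
  intro M K' K _ _ _ _ _ _ _ _ _ ιK n t h
  have hpp := hp.prime
  have hp2 : p ≠ 2 := by
    have := hp.five
    omega
  obtain ⟨hpts, hsha⟩ := hA M K' K ιK n t h
  have hU : UnrP p (KG F K ιK) := H35Z.unr_up hpp hp2 hp.unr K ιK h.unr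
  obtain ⟨hle1, hle2⟩ := q_leT h.cyc ιK
  obtain ⟨Λ, hΛa, hΛs, hΛ1, hΛv⟩ := z4_anaP hH hp ιK h (hX _ (H13R.unr_le hpp (hle1.trans hle2) hU))
  refine ⟨hpts, hsha, exists_perZ (perW_of hH), Λ, hΛa, hΛs, hΛ1, fun L hL V hV => ?_⟩
  obtain ⟨f⟩ := hsha
  rw [shaG_lG, map_mul, map_pow, H55P.val_nat p hpp V hV _ hpts.2, one_pow, mul_one, hΛv L hL V hV, Nat.card_congr f.toEquiv,
    z6_card (z6_fin hpp hp2 h.cyc h.unr hH ιK) (fun w => eK K w)]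

open Classical in
/-- THE THEOREM for isogenous curves. -/
theorem shaP_iso (hX : ∀ (K : Type) [Field K] [NumberField K] (W₁ W₂ : WeierstrassCurve K) [W₁.IsElliptic] [W₂.IsElliptic],
      H28I.Iso6 W₁ W₂ (AlgebraicClosure K) → Nonempty (ShaG p K W₁ ≃+ ShaG p K W₂))
    (h : TW F W W' Om m ψ kap e t u lam) (hp' : PrimeH F (W'⁄(𝓞 F)) p) (hT : ShaThmP F p W) :
    ShaThmP F p W' := by
  intro M K' K _ _ _ _ _ _ _ _ _ ιK n t hS
  have hp := (tw_prime h).1 hp'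
  have h5 := hp.five
  have h2 : p ≠ 2 := by omega
  have hpp : p.Prime := hp.prime
  have hAn := z5_AnR (p := p) h K' K
  have hok : OkM p (W⁄(𝓞 F)) (KG F M (emb ιK : M →ₐ[ℚ] AlgebraicClosure F)) := (okm_tw h _).1 hS.ok
  have hSK' := H13R.i1_same h hp K' (lfun_tw h K')
  have hSK := H13R.i1_same h hp K (lfun_tw h K)
  have hunit : BSDPG p W K' := (H35U.bsdB_iff h.base hp K' (emb ιK : K' →ₐ[ℚ] AlgebraicClosure F)).2
    ⟨(H13R.i1_sel hpp h5 hSK').1 hS.unit.1.1, (H13R.i1_lunit hSK').1 ((H13R.an_iff hpp hS.unit.1.2.2.2).1 hS.unit.2)⟩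
  have hful : ∀ w ∈ AnR p W K' K, eK K w ^ 2 ∣ Nat.card (W⁄(𝓞 K' ⧸ w.asIdeal)).toAffine.Point := by
    intro w hw
    have h1 := hS.ful w (by rw [hAn]; exact hw)
    obtain ⟨l, f, hl, hlw, hf, hN⟩ := H55K.TQ.below_W w
    have hwm := w.isMaximal
    let _ : Field (𝓞 K' ⧸ w.asIdeal) := Ideal.Quotient.field _
    have hfin : Finite (𝓞 K' ⧸ w.asIdeal) := w.asIdeal.finiteQuotientOfFreeOfNeBot w.ne_bot
    have hk : ((l : ℕ) : 𝓞 K' ⧸ w.asIdeal) = 0 := by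
      rw [← map_natCast (Ideal.Quotient.mk w.asIdeal), Ideal.Quotient.eq_zero_iff_mem]
      exact hlw
    have hΔ : ¬ (l : ℤ) ∣ W.Δ := fun h3 => hw.1 ((rh_int w.isPrime.ne_top hl hlw W.Δ).2 h3)
    have hcard : Nat.card (W'⁄(𝓞 K' ⧸ w.asIdeal)).toAffine.Point = Nat.card (W⁄(𝓞 K' ⧸ w.asIdeal)).toAffine.Point :=
      z5_fin h hl hΔ (𝓞 K' ⧸ w.asIdeal) hk
    rw [← hcard]
    exact h1
  have hO := hT M K' K ιK n t ⟨hS.posn, hS.pos, hS.cyc, hS.unr, hok, hunit, fun w hw => hS.nsp w (by rw [hAn]; exact hw), hful⟩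
  obtain ⟨q1, q2⟩ := H28I.pts_iso hpp h5 (H28I.a0_disc hSK.disc' K) hSK.iso hO.pts.1 hO.pts.2
  have hWK : (W⁄K).IsElliptic := fin_ell hSK.disc K
  have hWK' : (W'⁄K).IsElliptic := fin_ell hSK.disc' K
  obtain ⟨φ⟩ := hX K (W⁄K) (W'⁄K) hSK.iso
  have hcard : Nat.card (ShaG p K (W'⁄K)) = Nat.card (ShaG p K (W⁄K)) := Nat.card_congr φ.symm.toEquiv
  obtain ⟨f⟩ := hO.sha
  have hsha : Nonempty (ShaG p K (W'⁄K) ≃+ ((w : AnR p W' K' K) → ZMod (eK K w.1) × ZMod (eK K w.1))) := by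
    rw [hAn]
    exact ⟨φ.symm.trans f⟩
  obtain ⟨Λ, hΛa, hΛs, hΛ1, hΛv⟩ := hO.bsd
  refine ⟨⟨q1, q2⟩, hsha, hSK.ex', Λ, hΛa, (H28I.a0_ser hSK Λ).2 hΛs, hΛ1, fun L hL V hV => ?_⟩
  obtain ⟨L₀, hL₀⟩ := hSK.ex
  have e1 := hΛv L₀ hL₀ V hV
  rw [shaG_lG, map_mul, map_pow, H55P.val_nat p hpp V hV _ hO.pts.2, one_pow, mul_one] at e1
  rw [shaG_lG, map_mul, map_pow, H55P.val_nat p hpp V hV _ q2, one_pow, mul_one, hcard, hSK.per L₀ L hL₀ hL V hV]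
  exact e1

open Classical in
/-- THE THEOREM, all 13 orders of class number one. -/
theorem shaP_allA (F : Type) [Field F] [NumberField F] [IQ F] (W' : WeierstrassCurve ℤ) (hC : H19A.CM F W') (p : ℕ) (hp : p.Prime)
    (h5 : 5 ≤ p) (hd : ¬ (p : ℤ) ∣ W'.Δ)
    (hX : ∀ (K : Type) [Field K] [NumberField K] (W₁ W₂ : WeierstrassCurve K) [W₁.IsElliptic] [W₂.IsElliptic],
      H28I.Iso6 W₁ W₂ (AlgebraicClosure K) → Nonempty (ShaG p K W₁ ≃+ ShaG p K W₂))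
    (hA : ∀ (W : WeierstrassCurve ℤ) (Om : ℂ) (m : Ideal (𝓞 F)) (ψ : Ideal (𝓞 F) →*₀ 𝓞 F),
      BaseH F (W⁄(𝓞 F)) Om m ψ → PrimeH F (W⁄(𝓞 F)) p → AlgP F p W)
    (hB : ∀ (W : WeierstrassCurve ℤ) (Om : ℂ) (m : Ideal (𝓞 F)) (ψ : Ideal (𝓞 F) →*₀ 𝓞 F),
      BaseH F (W⁄(𝓞 F)) Om m ψ → PrimeH F (W⁄(𝓞 F)) p → AuxH F p (W⁄(𝓞 F))) : ShaThmP F p W' := by
  have hcub : ∀ w : 𝓞 F, w ^ 2 + w + 1 = 0 → ∀ n : ℤ, n ≠ 0 →
      ∃ κ : 𝓞 F → 𝓞 F, H55W.PRC (𝓞 F) 3 n (3 * n) (27 * n) κ := fun w hw n hn => H55W.cub_F F IQ.deg w hw n hn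
  rcases H55Y.y5_cases hC hcub with ⟨Om, hper⟩ | ⟨W, Om, m, ψ, kap, e, t, u, lam, hΔ, hper, h⟩
  · obtain ⟨hΔ, hmin, -⟩ := hC
    obtain ⟨ψ, hH⟩ := H55W.base_all0 hcub W' Om hΔ hper hmin
    have hP0 := H55W.prime_simple hΔ hper hp h5 hd
    exact shaP_max hH hP0 (hA _ _ _ _ hH hP0) (hB _ _ _ _ hH hP0)
  · have hP0 := H55W.prime_simple hΔ hper hp h5 fun h' => hd (H55Y.y6_dvd h hp h')
    exact shaP_iso hX h ((H28I.tw_prime h).2 hP0) (shaP_max h.base hP0 (hA _ _ _ _ h.base hP0) (hB _ _ _ _ h.base hP0))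

end H41P
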