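import Mathlib
import Pool.Agent.Lib.H41P.E4
import Pool.Agent.Lib.H13P.C6
import Pool.Agent.Lib.H35KK.X4
import Pool.Agent.Lib.H35KK.X5

/-! # H41P, E5: the algebraic half of theorem (T+) over K -/

open NumberField IsDedekindDomain WeierstrassCurve

namespace H41P

open H55N
open H55P (IQ UnrP PExt)
open H55K H55K.TQ
open H13T (AnR AnW emb)
open H13P (exP exP_pow)

/-- The algebraic half of the theorem for complex multiplication by the integers of F. -/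
theorem ze_algP {F : Type} [Field F] [NumberField F] [IQ F] {W : WeierstrassCurve ℤ} {Om : ℂ} {m : Ideal (𝓞 F)}
    {ψ : Ideal (𝓞 F) →*₀ 𝓞 F} {p : ℕ} (hH : BaseH F (W⁄(𝓞 F)) Om m ψ) (hp : PrimeH F (W⁄(𝓞 F)) p) : AlgP F p W := by
  intro M K' K _ _ _ _ _ _ _ _ _ ιK n t h
  obtain ⟨⟨γ, c⟩, hU, hB, hS, hfin, nsp, ful⟩ := zp_data hH hp ιK h
  obtain ⟨h1, h2, h3⟩ := H13P.shaP_F hH hp c hU hB hS nsp ful
  exact ⟨SSG.pts_KG W hp.prime K ιK h2 h3, H35KK.kk_main hH hp h.cyc h.unr ιK _ (fun w => (exP_pow c hp.prime w).1) h1⟩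

end H41P
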