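import Mathlib
import Pool.Agent.Lib.H35AX.A9
import Pool.Agent.Lib.H41P.E4

/-! # H41P, X3: the auxiliary characters from the separation of the p-th powers -/

open NumberField IsDedekindDomain WeierstrassCurve

namespace H41P

open H55P (IQ UnrP)
open H55R (Pl)
open H35AX (Sep)

theorem sep_mono {L : Type} [Field L] [NumberField L] {p k : ℕ} {G G' : Pl L → Prop} (h : ∀ w, G w → G' w) (hs : Sep p k G) :
    Sep p k G' := by
  intro S hS y hy hyp
  obtain ⟨q, h1, h2, h3⟩ := hs S hS y hy hyp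
  exact ⟨q, h1, h q h2, h3⟩

/-- The auxiliary characters. -/
theorem auxH_of {F : Type} [Field F] [NumberField F] [IQ F] {p : ℕ} (hp : p.Prime) (W₀ : WeierstrassCurve (𝓞 F))
    (hμ : ∀ (L : IntermediateField F (AlgebraicClosure F)) [NumberField L], UnrP p L → ∀ z : 𝓞 L, z ^ p = 1 → z = 1)
    (hs : ∀ (L : IntermediateField F (AlgebraicClosure F)) [NumberField L], UnrP p L → ∀ k, 1 ≤ k →
      Sep p k (fun w : Pl L => algebraMap (𝓞 F) (𝓞 L) W₀.Δ ∉ w.asIdeal ∧ ¬ p ∣ Nat.card (W₀⁄(𝓞 L ⧸ w.asIdeal)).toAffine.Point)) :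
    AuxH F p W₀ :=
  fun L _ hU => H35AX.aux_all hp (hμ L hU) fun k hk => sep_mono (fun _ h => h.2) (hs L hU k hk)

end H41P
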