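import Mathlib
import Pool.Agent.Lib.H41P.E5
import Pool.Agent.Lib.H41P.X3
import Pool.Agent.Lib.H55X.Res

/-! # H41P: THEOREM (T+) -/

open NumberField IsDedekindDomain WeierstrassCurve

namespace H41P

open H55P (IQ)
open H55K.TQ
open H13V (ShaThmP)

/-- THEOREM (T+), all 13 orders of class number one. -/
theorem shaP_all (F : Type) [Field F] [NumberField F] [IQ F] (W' : WeierstrassCurve ℤ) (hC : H19A.CM F W') (p : ℕ) (hp : p.Prime)
    (h5 : 5 ≤ p) (hd : ¬ (p : ℤ) ∣ W'.Δ) : ShaThmP F p W' :=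
  shaP_allA F W' hC p hp h5 hd (fun K _ _ W₁ W₂ _ _ h => H35KK.x4 h hp h5) (fun W Om m ψ hH hp0 => ze_algP hH hp0)
    fun W Om m ψ hH hp0 => auxH_of hp _ (fun L _ hU z hz => H55X.mu hH hp0 L hU z hz) fun L _ hU k _ => H55X.sep hH hp0 L hU k

end H41P
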